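import Pool.Agent.Lib.MP_d70044_ag.EX.Eqn

/-!
# EX.Exist: existence of an equation which does not vanish at a given tensor
-/

namespace EX

open Finset

theorem exists_equation {V : Type*} [Fintype V] [DecidableEq V] {N k : ℕ}
    (hV : Fintype.card V = 2 * N) {s : Option V → ℂ} (hs : Function.Injective s)
    (T : Fin k → Fin (N + 1) × Fin (N + 1) → ℂ) (hT : LinearIndependent ℂ T)
    (hdiag : ∀ l v, ∑ x : Fin (N + 1) × Fin (N + 1),
      T l x * (s (some v) ^ (x.1 : ℕ) * s (some v) ^ (x.2 : ℕ)) = 0)
    (B : Finset (RS (Option V) N)) (hB : B.card < k)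
    (hbad : ∀ R : RS (Option V) N, none ∉ R.1 →
      (fun x : Fin (N + 1) × Fin (N + 1) => bR N s (R.1ᶜ.erase none) x.1 * bR N s R.1 x.2) ∈
        Submodule.span ℂ (Set.range T) → R ∈ B) :
    ∃ F : MvPolynomial (Fin (N + 1) × Fin (N + 1) × Fin k) ℂ,
      (∀ (a b : Fin k → Fin (N + 1) → ℂ) (c : Fin k → Fin k → ℂ),
        MvPolynomial.eval (ten a b c) F = 0) ∧
      MvPolynomial.eval (fun p => T p.2.2 (p.1, p.2.1)) F ≠ 0 := by
  classical
  -- dual functionals
  obtain ⟨l, hl⟩ : ∃ l : Fin k → Fin (N + 1) × Fin (N + 1) → ℂ,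
      ∀ i m, ∑ x, l i x * T m x = if i = m then 1 else 0 := by
    have hinj : LinearMap.ker (Fintype.linearCombination ℂ T) = ⊥ := by
      rw [LinearMap.ker_eq_bot']
      intro c hc
      rw [Fintype.linearIndependent_iff] at hT
      funext i
      exact hT c (by rw [Fintype.linearCombination_apply] at hc; exact hc) i
    obtain ⟨g, hg⟩ := LinearMap.exists_leftInverse_of_injective _ hinj
    refine ⟨fun i x => g (Pi.single x 1) i, fun i m => ?_⟩
    have h1 : g (T m) = Pi.single m 1 := by
      have h2 := LinearMap.congr_fun hg (Pi.single m 1)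
      rw [LinearMap.comp_apply, Fintype.linearCombination_apply] at h2
      rw [Finset.sum_eq_single m] at h2
      · rw [Pi.single_eq_same, one_smul] at h2
        exact h2
      · intro j _ hj
        rw [Pi.single_eq_of_ne hj, zero_smul]
      · intro h
        exact absurd (Finset.mem_univ _) h
    have h2 : T m = ∑ x, T m x • (Pi.single x (1 : ℂ) : Fin (N + 1) × Fin (N + 1) → ℂ) := by
      funext y
      rw [Finset.sum_apply, Finset.sum_eq_single y]
      · simp
      · intro x _ hx
        simp [Pi.single_eq_of_ne hx.symm]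
      · intro h
        exact absurd (Finset.mem_univ _) h
    have h3 : ∑ x, g (Pi.single x 1) i * T m x = g (T m) i := by
      conv_rhs => rw [h2]
      rw [map_sum, Finset.sum_apply]
      refine Finset.sum_congr rfl fun x _ => ?_
      rw [map_smul, Pi.smul_apply, smul_eq_mul, mul_comm]
    rw [h3, h1, Pi.single_apply]
  -- functionals for good subsets
  have hψ : ∀ R : RS (Option V) N, ∃ ψ : Fin (N + 1) × Fin (N + 1) → ℂ,
      (∀ m, ∑ x, ψ x * T m x = 0) ∧ (none ∉ R.1 → R ∉ B →
        ∑ x : Fin (N + 1) × Fin (N + 1), ψ x *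
          (bR N s (R.1ᶜ.erase none) x.1 * bR N s R.1 x.2) ≠ 0) := by
    intro R
    by_cases h : none ∉ R.1 ∧ R ∉ B
    · have hns : (fun x : Fin (N + 1) × Fin (N + 1) =>
          bR N s (R.1ᶜ.erase none) x.1 * bR N s R.1 x.2) ∉
          Submodule.span ℂ (Set.range T) := fun h' => h.2 (hbad R h.1 h')
      obtain ⟨f, hf1, hf2⟩ := Submodule.exists_le_ker_of_notMem hns
      have h3 : ∀ w : Fin (N + 1) × Fin (N + 1) → ℂ, ∑ x, f (Pi.single x 1) * w x = f w := by
        intro w
        have h2 : w = ∑ x, w x • (Pi.single x (1 : ℂ) : Fin (N + 1) × Fin (N + 1) → ℂ) := by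
          funext y
          rw [Finset.sum_apply, Finset.sum_eq_single y]
          · simp
          · intro x _ hx
            simp [Pi.single_eq_of_ne hx.symm]
          · intro h
            exact absurd (Finset.mem_univ _) h
        conv_rhs => rw [h2]
        rw [map_sum]
        refine Finset.sum_congr rfl fun x _ => ?_
        rw [map_smul, smul_eq_mul, mul_comm]
      refine ⟨fun x => f (Pi.single x 1), fun m => ?_, fun _ _ => ?_⟩
      · rw [h3]
        exact hf2 (Submodule.subset_span ⟨m, rfl⟩)
      · rw [h3]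
        exact hf1
    · refine ⟨0, fun m => ?_, fun h1 h2 => absurd ⟨h1, h2⟩ h⟩
      simp
  choose ψ hψ1 hψ2 using hψ
  set good : RS (Option V) N → Prop := fun R => R ∉ B with hgood
  set φ : Cidx V N good → Fin (N + 1) × Fin (N + 1) → ℂ := phiC s ψ with hφ
  have hφT : ∀ y m, ∑ x, φ y x * T m x = 0 := by
    intro y m
    rw [hφ]
    unfold phiC
    rcases hy : y.1.2 with _ | v
    · exact hψ1 _ m
    · rw [← hdiag m v]
      refine Finset.sum_congr rfl fun x _ => ?_
      simp only [Option.elim_some]
      ring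
  have hPhi : LinearMap.ker (Phi s φ SC).mulVecLin = ⊥ := by
    rw [LinearMap.ker_eq_bot']
    intro v hv
    exact cols hV hs ψ (fun R h1 h2 => hψ2 R h1 h2) v hv
  obtain ⟨g, hg⟩ := LinearMap.exists_leftInverse_of_injective _ hPhi
  set Q : Matrix (Cidx V N good) (Fin (N + 1) × RS (Option V) N) ℂ := LinearMap.toMatrix' g
    with hQ
  have hQPhi : Q * Phi s φ SC = 1 := by
    have h1 : Matrix.toLin' (Q * Phi s φ SC) = Matrix.toLin' 1 := by
      rw [Matrix.toLin'_mul, hQ, Matrix.toLin'_toMatrix', Matrix.toLin'_one, ← hg]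
      rfl
    exact Matrix.toLin'.injective h1
  obtain ⟨F, hF⟩ := exists_F s φ SC l Q
  refine ⟨F, fun a b c => ?_, ?_⟩
  · rw [hF]
    refine van ?_ hs φ SC (fun y => card_SC hV y) l ?_ Q a b c
    · rw [Fintype.card_option, hV]
    · have h1 := card_cols hV good
      have h2 : Fintype.card {R : RS (Option V) N // none ∉ R.1 ∧ ¬ good R} ≤ B.card := by
        rw [← Fintype.card_coe]
        refine Fintype.card_le_of_injective (fun R => ⟨R.1, ?_⟩) ?_
        · exact not_not.1 R.2.2
        · intro R R' h
          apply Subtype.ext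
          exact congrArg (fun x => x.1) h
      omega
  · rw [hF]
    have hsl : sl (fun p : Fin (N + 1) × Fin (N + 1) × Fin k => T p.2.2 (p.1, p.2.1)) = T := by
      funext m x
      rfl
    rw [hsl]
    have hG : Gm l T = 1 := by
      ext i m
      unfold Gm pr
      simp only [Algebra.algebraMap_self, RingHom.id_apply]
      rw [hl, Matrix.one_apply]
    have hcorr : (fun y => corr l (φ y) T) = φ := by
      funext y x
      unfold corr
      rw [hG, Matrix.det_one, one_mul]
      have h1 : ∀ i, pr (φ y) (T i) = 0 := by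
        intro i
        unfold pr
        simp only [Algebra.algebraMap_self, RingHom.id_apply]
        exact hφT y i
      simp [h1]
    rw [hcorr, hG, hQPhi, Matrix.det_one, Matrix.det_one, one_mul]
    exact one_ne_zero

end EX
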