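import Pool.Agent.Lib.MP_d70044_ag.EX.Vec
import Pool.Agent.Lib.MP_d70044_ag.EX.Exist

/-!
# EX.Bad: an equation not vanishing at a general point of the line
-/

namespace EX

open Polynomial Finset Lagrange

variable {X : Type*} [Fintype X] [DecidableEq X] {N : ℕ}

/-- the nodes: `x_i`, `z_j` and one extra node `w0` -/
def nd (w0 : ℂ) (x z : X → ℂ) : Option (X ⊕ X) → ℂ := fun o => Option.elim o w0 (Sum.elim x z)

theorem nd_inj {w0 : ℂ} {x z : X → ℂ} (hx : Function.Injective x) (hz : Function.Injective z)
    (hxz : ∀ i j, x i ≠ z j) (hx0 : ∀ i, x i ≠ w0) (hz0 : ∀ i, z i ≠ w0) :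
    Function.Injective (nd w0 x z) := by
  intro a b h
  rcases a with _ | (a | a) <;> rcases b with _ | (b | b) <;>
    simp only [nd, Option.elim_none, Option.elim_some, Sum.elim_inl, Sum.elim_inr] at h
  · rfl
  · exact absurd h.symm (hx0 b)
  · exact absurd h.symm (hz0 b)
  · exact absurd h (hx0 a)
  · rw [hx h]
  · exact absurd h (hxz a b)
  · exact absurd h (hz0 a)
  · exact absurd h.symm (hxz b a)
  · rw [hz h]

theorem nodal_split (w0 : ℂ) (x z : X → ℂ) (R : Finset (Option (X ⊕ X))) (hR : none ∉ R) :
    nodal R (nd w0 x z) = nodal (Finset.univ.filter fun i => some (Sum.inl i) ∈ R) x *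
      nodal (Finset.univ.filter fun j => some (Sum.inr j) ∈ R) z := by
  unfold nodal
  have h1 : ∏ r ∈ R, (Polynomial.X - C (nd w0 x z r) : Polynomial ℂ) =
      ∏ r : Option (X ⊕ X), if r ∈ R then (Polynomial.X - C (nd w0 x z r) : Polynomial ℂ) else 1 := by
    rw [Finset.prod_ite_mem, Finset.univ_inter]
  rw [h1, Fintype.prod_option, if_neg hR, one_mul, Fintype.prod_sum_type]
  congr 1
  · rw [Finset.prod_filter]
    rfl
  · rw [Finset.prod_filter]
    rfl

/-- the tensor on the line, as a family of slices -/
noncomputable def TT (N : ℕ) (x z : X → ℂ) {k : ℕ} (e : Fin k → X × X) (lo : Fin k) (t : ℂ) :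
    Fin k → Fin (N + 1) × Fin (N + 1) → ℂ :=
  fun l => uu N x z {(e l).1} {(e l).2} + (if l = lo then t else 0) • uu N x z ∅ ∅

theorem th_TT (hN : Fintype.card X = N) (x z : X → ℂ) {k : ℕ} (e : Fin k → X × X) (lo : Fin k)
    (t : ℂ) (l : Fin k) (i j : X) :
    th N (x i) (z j) (TT N x z e lo t l) =
      if e l = (i, j) then th N (x i) (z j) (uu N x z {i} {j}) else 0 := by
  unfold TT
  rw [map_add, map_smul, th_empty hN, smul_zero, add_zero]
  split_ifs with h
  · rw [h]
  · exact th_single_ne hN h

/-- the exceptional subsets -/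
def Rij (hN : Fintype.card X = N) (p : X × X) : RS (Option (X ⊕ X)) N :=
  ⟨insert (some (Sum.inl p.1)) ((Finset.univ.erase p.2).image fun j => some (Sum.inr j)), by
    rw [Finset.card_insert_of_notMem, Finset.card_image_of_injective, Finset.card_erase_of_mem
      (Finset.mem_univ _), Finset.card_univ, hN]
    · have : 0 < Fintype.card X := Fintype.card_pos_iff.2 ⟨p.1⟩
      omega
    · intro a b h
      simpa using h
    · simp⟩

theorem conf_equation (hN : Fintype.card X = N) {w0 : ℂ} {x z : X → ℂ}
    (hx : Function.Injective x) (hz : Function.Injective z) (hxz : ∀ i j, x i ≠ z j)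
    (hx0 : ∀ i, x i ≠ w0) (hz0 : ∀ i, z i ≠ w0) {k : ℕ} {e : Fin k → X × X}
    (he : Function.Injective e) (lo : Fin k) {t : ℂ}
    (ht : ∀ I J : Finset X, I.card = J.card → (e lo).1 ∈ I → (e lo).2 ∈ J →
      t * cc x z I J (e lo).1 (e lo).2 ≠ 1 - (I.card : ℂ)) :
    ∃ F : MvPolynomial (Fin (N + 1) × Fin (N + 1) × Fin k) ℂ,
      (∀ (a b : Fin k → Fin (N + 1) → ℂ) (c : Fin k → Fin k → ℂ),
        MvPolynomial.eval (ten a b c) F = 0) ∧
      MvPolynomial.eval (fun p => TT N x z e lo t p.2.2 (p.1, p.2.1)) F ≠ 0 := by
  classical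
  refine exists_equation (V := X ⊕ X) (s := nd w0 x z) ?_ (nd_inj hx hz hxz hx0 hz0)
    (TT N x z e lo t) ?_ ?_ ((Finset.univ.erase lo).image fun l => Rij hN (e l)) ?_ ?_
  · rw [Fintype.card_sum, hN]
    ring
  · rw [Fintype.linearIndependent_iff]
    intro c hc l
    have h1 := congrArg (th N (x (e l).1) (z (e l).2)) hc
    rw [map_zero, map_sum] at h1
    simp only [map_smul, th_TT hN, smul_eq_mul] at h1
    rw [Finset.sum_eq_single l] at h1
    · rw [if_pos rfl] at h1
      exact (mul_eq_zero.1 h1).resolve_right (th_single hN hx hz hxz _ _)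
    · intro l' _ hl'
      rw [if_neg, mul_zero]
      intro h
      exact hl' (he h)
    · intro h
      exact absurd (Finset.mem_univ _) h
  · intro l v
    rw [← th_apply]
    unfold TT
    rw [map_add, map_smul]
    rcases v with i | j
    · change th N (x i) (x i) _ + _ • th N (x i) (x i) _ = 0
      rw [diag_x hN x z (by simp), diag_x hN x z rfl, smul_zero, add_zero]
    · change th N (z j) (z j) _ + _ • th N (z j) (z j) _ = 0
      rw [diag_z hN x z (by simp), diag_z hN x z rfl, smul_zero, add_zero]
  · refine Finset.card_image_le.trans_lt ?_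
    rw [Finset.card_erase_of_mem (Finset.mem_univ _), Finset.card_univ, Fintype.card_fin]
    have := lo.pos
    omega
  · intro R hR hspan
    set I : Finset X := Finset.univ.filter fun i => some (Sum.inl i) ∈ R.1 with hI
    set J : Finset X := Finset.univ.filter fun j => some (Sum.inr j) ∉ R.1 with hJ
    have hJc : (Finset.univ.filter fun j => some (Sum.inr j) ∈ R.1) = Jᶜ := by
      rw [hJ]
      ext j
      simp
    have hIc : (Finset.univ.filter fun i => some (Sum.inl i) ∈ R.1ᶜ.erase none) = Iᶜ := by
      rw [hI]
      ext j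
      simp
    have hJc2 : (Finset.univ.filter fun i => some (Sum.inr i) ∈ R.1ᶜ.erase none) = J := by
      rw [hJ]
      ext j
      simp
    have hn1 : nodal R.1 (nd w0 x z) = AA z x J I := by
      rw [nodal_split w0 x z R.1 hR, hJc]
      unfold AA
      rw [mul_comm]
    have hn2 : nodal (R.1ᶜ.erase none) (nd w0 x z) = AA x z I J := by
      rw [nodal_split w0 x z _ (Finset.notMem_erase _ _), hIc, hJc2]
      rfl
    have hIJ : I.card = J.card := by
      have h1 := congrArg natDegree hn1
      rw [natDegree_nodal, R.2] at h1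
      unfold AA at h1
      rw [Monic.natDegree_mul nodal_monic nodal_monic, natDegree_nodal, natDegree_nodal,
        Finset.card_compl, hN] at h1
      have h2 := Finset.card_le_univ J
      omega
    have hu : (fun y : Fin (N + 1) × Fin (N + 1) =>
        bR N (nd w0 x z) (R.1ᶜ.erase none) y.1 * bR N (nd w0 x z) R.1 y.2) = uu N x z I J := by
      funext y
      unfold bR uu
      rw [hn1, hn2]
    rw [hu] at hspan
    obtain ⟨c, hc⟩ := (Submodule.mem_span_range_iff_exists_fun ℂ).1 hspan
    set f : X × X → ℂ := fun p => if p.1 ∈ I ∧ p.2 ∈ J then cc x z I J p.1 p.2 else 0 with hf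
    have hnode : ∀ i j, ∑ l, c l * (if e l = (i, j) then (1 : ℂ) else 0) = f (i, j) := by
      intro i j
      have h1 := congrArg (th N (x i) (z j)) hc
      rw [map_sum, th_uu_node hN hx hz hxz hIJ] at h1
      simp only [map_smul, th_TT hN, smul_eq_mul] at h1
      have h2 := th_single hN hx hz hxz i j
      refine mul_right_cancel₀ h2 ?_
      rw [Finset.sum_mul]
      rw [← h1]
      refine Finset.sum_congr rfl fun l _ => ?_
      split_ifs <;> ring
    have hcl : ∀ l, c l = f (e l) := by
      intro l
      rw [← hnode (e l).1 (e l).2, Finset.sum_eq_single l]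
      · rw [if_pos rfl, mul_one]
      · intro l' _ hl'
        rw [if_neg, mul_zero]
        intro h
        exact hl' (he h)
      · intro h
        exact absurd (Finset.mem_univ _) h
    have hout : ∀ p, p ∉ Set.range e → f p = 0 := by
      intro p hp
      have h1 := hnode p.1 p.2
      rw [Finset.sum_eq_zero] at h1
      · exact h1.symm
      · intro l _
        rw [if_neg, mul_zero]
        intro h
        exact hp ⟨l, h⟩
    have hsum : ∑ l, c l = (I.card : ℂ) := by
      rw [Finset.sum_congr rfl fun l _ => hcl l,
        Fintype.sum_of_injective e he (fun l => f (e l)) f hout (fun l => rfl),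
        Fintype.sum_prod_type]
      have h1 : ∀ i, ∑ j, f (i, j) = if i ∈ I then 1 else 0 := by
        intro i
        split_ifs with hi
        · rw [← sum_cc hx hz hIJ hi, hf]
          rw [← Finset.sum_filter_add_sum_filter_not Finset.univ (fun j => j ∈ J)]
          rw [Finset.sum_eq_zero (s := Finset.univ.filter fun j => j ∉ J), add_zero]
          · rw [Finset.filter_univ_mem]
            refine Finset.sum_congr rfl fun j hj => ?_
            beta_reduce
            rw [if_pos ⟨hi, hj⟩]
          · intro j hj
            beta_reduce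
            rw [if_neg]
            intro h
            exact (Finset.mem_filter.1 hj).2 h.2
        · refine Finset.sum_eq_zero fun j _ => ?_
          rw [hf]
          simp only
          rw [if_neg]
          intro h
          exact hi h.1
      rw [Finset.sum_congr rfl fun i _ => h1 i]
      simp
    have hlead : (I.card : ℂ) + t * c lo = 1 := by
      have h1 := congrFun hc (Fin.last N, Fin.last N)
      rw [lead_uu hN x z hIJ, Finset.sum_apply] at h1
      have h2 : ∀ l, (c l • TT N x z e lo t l) (Fin.last N, Fin.last N) =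
          c l + (if l = lo then t * c l else 0) := by
        intro l
        unfold TT
        simp only [Pi.smul_apply, Pi.add_apply, smul_eq_mul]
        rw [lead_uu hN x z (by simp), lead_uu hN x z rfl]
        split_ifs <;> ring
      rw [Finset.sum_congr rfl fun l _ => h2 l, Finset.sum_add_distrib, hsum,
        Finset.sum_ite_eq' Finset.univ lo, if_pos (Finset.mem_univ _)] at h1
      exact h1
    have hlo : ¬ ((e lo).1 ∈ I ∧ (e lo).2 ∈ J) := by
      intro h
      apply ht I J hIJ h.1 h.2
      rw [← hlead, hcl lo, hf]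
      simp only
      rw [if_pos h]
      ring
    have hh : I.card = 1 := by
      have h1 : c lo = 0 := by
        rw [hcl lo, hf]
        simp only
        rw [if_neg hlo]
      rw [h1, mul_zero, add_zero] at hlead
      exact_mod_cast hlead
    obtain ⟨i, hi⟩ := Finset.card_eq_one.1 hh
    obtain ⟨j, hj⟩ := Finset.card_eq_one.1 (hIJ ▸ hh)
    have hfij : f (i, j) ≠ 0 := by
      have h1 := sum_cc hx hz hIJ (i := i) (by rw [hi]; exact Finset.mem_singleton_self i)
      rw [hj, Finset.sum_singleton] at h1
      rw [hf]
      simp only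
      rw [hi, hj, if_pos ⟨Finset.mem_singleton_self i, Finset.mem_singleton_self j⟩, ← hi, h1]
      exact one_ne_zero
    have hr : (i, j) ∈ Set.range e := by
      by_contra h
      exact hfij (hout _ h)
    obtain ⟨l, hl⟩ := hr
    rw [Finset.mem_image]
    refine ⟨l, ?_, ?_⟩
    · rw [Finset.mem_erase]
      refine ⟨?_, Finset.mem_univ _⟩
      intro h
      apply hlo
      rw [← h, hl, hi, hj]
      exact ⟨Finset.mem_singleton_self i, Finset.mem_singleton_self j⟩
    · apply Subtype.ext
      unfold Rij
      rw [hl]
      simp only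
      ext o
      rcases o with _ | (i' | j')
      · simp [hR]
      · have h1 : some (Sum.inl i') ∈ R.1 ↔ i' ∈ I := by
          rw [hI, Finset.mem_filter]
          simp
        rw [h1, hi]
        simp
      · have h1 : some (Sum.inr j') ∈ R.1 ↔ j' ∉ J := by
          rw [hJ, Finset.mem_filter]
          simp
        rw [h1, hj]
        simp

end EX
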