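import Mathlib

/-!
# EX.Conf: the scalar identities of the configuration
-/

namespace EX

open Polynomial Finset Lagrange

variable {X : Type*} [DecidableEq X]

/-- the coefficients of the basic relation -/
noncomputable def cc (x z : X → ℂ) (I J : Finset X) (i j : X) : ℂ :=
  (Lagrange.basis J z j).eval (x i) * (Lagrange.basis I x i).eval (z j)

theorem cc_symm (x z : X → ℂ) (I J : Finset X) (i j : X) : cc x z I J i j = cc z x J I j i := by
  unfold cc
  rw [mul_comm]

/-- the coefficients of the expansion -/
noncomputable def rho (x z : X → ℂ) (I J : Finset X) (i : X) : ℂ :=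
  (nodal J z).eval (x i) * nodalWeight I x i

/-- `∑_j c_ij = 1` -/
theorem sum_cc {x z : X → ℂ} (hx : Function.Injective x) (hz : Function.Injective z)
    {I J : Finset X} (hIJ : I.card = J.card) {i : X} (hi : i ∈ I) :
    ∑ j ∈ J, cc x z I J i j = 1 := by
  have hd : (Lagrange.basis I x i).degree < J.card := by
    rw [degree_basis hx.injOn hi, ← hIJ]
    have : 0 < I.card := Finset.card_pos.2 ⟨i, hi⟩
    exact_mod_cast Nat.sub_lt this one_pos
  have h1 := eq_interpolate (v := z) (s := J) (f := Lagrange.basis I x i) hz.injOn hd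
  have h2 := congrArg (fun P => P.eval (x i)) h1
  simp only [eval_basis_self hx.injOn hi] at h2
  rw [h2, interpolate_apply, eval_finsetSum]
  refine Finset.sum_congr rfl fun j _ => ?_
  rw [eval_mul, eval_C]
  unfold cc
  rw [mul_comm]

theorem basis_mul {x z : X → ℂ} {J : Finset X} {j : X} (hj : j ∈ J) {a : ℂ} (ha : a ≠ z j) :
    (Lagrange.basis J z j).eval a * (a - z j) = (nodal J z).eval a * nodalWeight J z j := by
  rw [eval_basis_not_at_node hj ha]
  have : a - z j ≠ 0 := sub_ne_zero.2 ha
  field_simp

/-- `∑_j c_ij (x_i - z_j) = ρ_i` -/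
theorem sum_cc_mul {x z : X → ℂ} (hx : Function.Injective x) (hz : Function.Injective z)
    (hxz : ∀ i j, x i ≠ z j) {I J : Finset X} (hIJ : I.card = J.card) {i : X} (hi : i ∈ I) :
    ∑ j ∈ J, cc x z I J i j * (x i - z j) = rho x z I J i := by
  have hpos : 0 < I.card := Finset.card_pos.2 ⟨i, hi⟩
  have hd : (Lagrange.basis I x i).degree < J.card := by
    rw [degree_basis hx.injOn hi, ← hIJ]
    exact_mod_cast Nat.sub_lt hpos one_pos
  have h1 := coeff_eq_sum (v := z) (s := J) (P := Lagrange.basis I x i) hz.injOn hd
  have h2 : (Lagrange.basis I x i).coeff (J.card - 1) = nodalWeight I x i := by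
    rw [← hIJ, ← natDegree_basis hx.injOn hi]
    change (Lagrange.basis I x i).leadingCoeff = _
    rw [leadingCoeff_basis hx.injOn hi, nodalWeight, Finset.prod_inv_distrib]
  rw [h2] at h1
  unfold rho
  rw [h1, Finset.mul_sum]
  refine Finset.sum_congr rfl fun j hj => ?_
  unfold cc
  have h3 := basis_mul (x := x) hj (hxz i j)
  have h4 : (Lagrange.basis J z j).eval (x i) * (Lagrange.basis I x i).eval (z j) *
      (x i - z j) = ((Lagrange.basis J z j).eval (x i) * (x i - z j)) *
      (Lagrange.basis I x i).eval (z j) := by ring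
  rw [h4, h3, nodalWeight, Finset.prod_inv_distrib]
  ring

/-- `c_ij (x_i - z_j)² = - ρ_i σ_j` -/
theorem cc_sq {x z : X → ℂ} (hxz : ∀ i j, x i ≠ z j) {I J : Finset X} {i j : X} (hi : i ∈ I)
    (hj : j ∈ J) : cc x z I J i j * (x i - z j) ^ 2 = -(rho x z I J i * rho z x J I j) := by
  have h3 := basis_mul (x := x) hj (hxz i j)
  have h4 := basis_mul (x := x) (z := x) hi (hxz i j).symm
  unfold rho cc
  have h5 : (Lagrange.basis J z j).eval (x i) * (Lagrange.basis I x i).eval (z j) *
      (x i - z j) ^ 2 = -(((Lagrange.basis J z j).eval (x i) * (x i - z j)) *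
      ((Lagrange.basis I x i).eval (z j) * (z j - x i))) := by ring
  rw [h5, h3, h4]
  ring

/-- the polynomial `∏_{i ∉ I} (X - x_i) ∏_{j ∈ J} (X - z_j)` -/
noncomputable def AA [Fintype X] (x z : X → ℂ) (I J : Finset X) : ℂ[X] :=
  nodal Iᶜ x * nodal J z

theorem AA_expand [Fintype X] {x z : X → ℂ} (hx : Function.Injective x)
    {I J : Finset X} (hIJ : I.card = J.card) :
    AA x z I J = nodal Finset.univ x +
      ∑ i ∈ I, C (rho x z I J i) * nodal (Finset.univ.erase i) x := by
  have hd : (nodal J z - nodal I x).degree < I.card := by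
    have h1 : (nodal J z).degree = (nodal I x).degree := by
      rw [degree_nodal, degree_nodal, hIJ]
    have h2 := degree_sub_lt h1 nodal_ne_zero (by rw [nodal_monic, nodal_monic])
    rwa [degree_nodal, ← hIJ] at h2
  have h1 := eq_interpolate_of_eval_eq (v := x) (s := I) (f := nodal J z - nodal I x)
    (fun i => (nodal J z).eval (x i)) hx.injOn hd (fun i hi => by
      rw [eval_sub, eval_nodal_at_node hi, sub_zero])
  have h2 : nodal J z = nodal I x + interpolate I x (fun i => (nodal J z).eval (x i)) := by
    rw [← h1]
    ring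
  unfold AA
  conv_lhs => rw [h2]
  rw [mul_add]
  congr 1
  · unfold nodal
    rw [Finset.prod_compl_mul_prod]
  · rw [interpolate_eq_sum, Finset.mul_sum]
    refine Finset.sum_congr rfl fun i hi => ?_
    have h3 : nodal (Finset.univ.erase i) x = nodal Iᶜ x * nodal (I.erase i) x := by
      unfold nodal
      rw [← Finset.prod_union]
      · congr 1
        ext r
        simp only [Finset.mem_erase, Finset.mem_univ, and_true, Finset.mem_union,
          Finset.mem_compl]
        constructor
        · intro hr
          by_cases h : r ∈ I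
          · exact Or.inr ⟨hr, h⟩
          · exact Or.inl h
        · rintro (h | h)
          · intro hr
            rw [hr] at h
            exact h hi
          · exact h.1
      · rw [Finset.disjoint_left]
        intro r hr hr2
        rw [Finset.mem_compl] at hr
        exact hr (Finset.mem_erase.1 hr2).2
    have h4 : rho x z I J i = (nodal J z).eval (x i) / ∏ j ∈ I.erase i, (x i - x j) := by
      unfold rho nodalWeight
      rw [Finset.prod_inv_distrib]
      ring
    rw [h3, h4]
    unfold nodal
    ring

end EX
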