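import Pool.Agent.Lib.MP_d70044_ag.EX.Lag

/-!
# EX.Drop: the rank of the matrix `Φ` for functionals with many common rank one zeros
-/

namespace EX

open Polynomial Finset Lagrange

/-- the matrix `Φ` -/
noncomputable def Phi {Z c : Type*} {N : ℕ} (s : Z → ℂ) (φ : c → Fin (N + 1) × Fin (N + 1) → ℂ)
    (S : c → Finset Z) : Matrix (Fin (N + 1) × RS Z N) c ℂ :=
  fun ρ y => (∑ q, φ y (ρ.1, q) * bR N s ρ.2.1 q) * gS s (S y) (bR N s ρ.2.1)

theorem exists_S {Z : Type*} [Fintype Z] [DecidableEq Z] {N : ℕ}
    (hZ : Fintype.card Z = 2 * N + 1) {s : Z → ℂ} (hs : Function.Injective s)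
    {b : Fin (N + 1) → ℂ} (hb : b ≠ 0) : ∃ S : Finset Z, S.card = N ∧ gS s S b ≠ 0 := by
  classical
  have h1 : (Finset.univ.filter fun z => ev b (s z) = 0).card ≤ N := by
    by_contra hcon
    push Not at hcon
    obtain ⟨W, hW, hWc⟩ := Finset.exists_subset_card_eq (Nat.succ_le_of_lt hcon)
    have h2 : pol b = 0 := by
      refine eq_zero_of_degree_lt_of_eval_index_eq_zero (v := s) W hs.injOn ?_ ?_
      · rw [hWc]
        exact degree_pol b
      · intro z hz
        rw [eval_pol]
        exact (Finset.mem_filter.1 (hW hz)).2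
    apply hb
    funext p
    rw [← coeff_pol b p, h2, coeff_zero]
    rfl
  have h2 : N ≤ (Finset.univ.filter fun z => ev b (s z) ≠ 0).card := by
    have h3 := Finset.card_filter_add_card_filter_not (s := (Finset.univ : Finset Z))
      (fun z => ev b (s z) = 0)
    rw [Finset.card_univ, hZ] at h3
    simp only [ne_eq]
    omega
  obtain ⟨S, hS, hSc⟩ := Finset.exists_subset_card_eq h2
  refine ⟨S, hSc, ?_⟩
  unfold gS
  refine Finset.prod_ne_zero_iff.2 fun z hz => ?_
  exact (Finset.mem_filter.1 (hS hz)).2

theorem drop {Z c : Type*} [Fintype Z] [DecidableEq Z] [Fintype c] [DecidableEq c] {N k : ℕ}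
    (hZ : Fintype.card Z = 2 * N + 1) {s : Z → ℂ} (hs : Function.Injective s)
    (φ : c → Fin (N + 1) × Fin (N + 1) → ℂ) (S : c → Finset Z) (hS : ∀ y, (S y).card = N)
    (a b : Fin k → Fin (N + 1) → ℂ)
    (hab : LinearIndependent ℂ
      (fun j => fun pq : Fin (N + 1) × Fin (N + 1) => a j pq.1 * b j pq.2))
    (hφ : ∀ y j, ∑ pq : Fin (N + 1) × Fin (N + 1), φ y pq * (a j pq.1 * b j pq.2) = 0)
    (hcard : Fintype.card (Fin (N + 1) × RS Z N) < Fintype.card c + k)
    (Q : Matrix c (Fin (N + 1) × RS Z N) ℂ) : (Q * Phi s φ S).det = 0 := by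
  classical
  set M : Matrix (Fin k) (Fin (N + 1) × RS Z N) ℂ := fun j ρ => a j ρ.1 * hR s ρ.2.1 (b j)
    with hM
  have hMP : M * Phi s φ S = 0 := by
    ext j y
    rw [Matrix.mul_apply, Matrix.zero_apply, Fintype.sum_prod_type]
    have h1 : ∀ p : Fin (N + 1), ∑ R : RS Z N, M j (p, R) * Phi s φ S (p, R) y =
        a j p * ((∑ q, φ y (p, q) * b j q) * gS s (S y) (b j)) := by
      intro p
      rw [← interp hZ hs (hS y) (fun q => φ y (p, q)) (b j), Finset.mul_sum]
      refine Finset.sum_congr rfl fun R _ => ?_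
      rw [hM]
      unfold Phi
      ring
    rw [Finset.sum_congr rfl fun p _ => h1 p]
    have h2 := hφ y j
    rw [Fintype.sum_prod_type] at h2
    have h3 : ∑ p, a j p * ((∑ q, φ y (p, q) * b j q) * gS s (S y) (b j)) =
        (∑ p, ∑ q, φ y (p, q) * (a j p * b j q)) * gS s (S y) (b j) := by
      rw [Finset.sum_mul]
      refine Finset.sum_congr rfl fun p _ => ?_
      rw [← mul_assoc, Finset.mul_sum]
      congr 1
      refine Finset.sum_congr rfl fun q _ => ?_
      ring
    rw [h3, h2, zero_mul]
  have hind : LinearIndependent ℂ M.row := by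
    rw [Fintype.linearIndependent_iff]
    intro lam hlam
    have hkey : ∀ T : Finset Z, T.card = N → ∀ j, lam j * gS s T (b j) = 0 := by
      intro T hT
      rw [Fintype.linearIndependent_iff] at hab
      refine hab (fun j => lam j * gS s T (b j)) ?_
      funext pq
      obtain ⟨p, q⟩ := pq
      rw [Finset.sum_apply, Pi.zero_apply]
      simp only [Pi.smul_apply, smul_eq_mul]
      have h1 : ∀ R : RS Z N, ∑ j, lam j * (a j p * hR s R.1 (b j)) = 0 := by
        intro R
        have h2 := congrFun hlam (p, R)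
        rw [Finset.sum_apply, Pi.zero_apply] at h2
        simpa [Matrix.row, hM] using h2
      have h2 : ∀ j, b j q * gS s T (b j) =
          ∑ R : RS Z N, bR N s R.1 q * gS s T (bR N s R.1) * hR s R.1 (b j) := by
        intro j
        have h3 := interp hZ hs hT (Pi.single q 1) (b j)
        have h4 : ∀ w : Fin (N + 1) → ℂ, ∑ p, (Pi.single q (1 : ℂ) : Fin (N + 1) → ℂ) p * w p =
            w q := by
          intro w
          rw [Finset.sum_eq_single q]
          · rw [Pi.single_eq_same, one_mul]
          · intro p _ hp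
            rw [Pi.single_eq_of_ne hp, zero_mul]
          · intro h
            exact absurd (Finset.mem_univ q) h
        rw [h4] at h3
        rw [← h3]
        refine Finset.sum_congr rfl fun R _ => ?_
        rw [h4]
      have h3 : ∑ j, lam j * gS s T (b j) * (a j p * b j q) =
          ∑ R : RS Z N, bR N s R.1 q * gS s T (bR N s R.1) *
            ∑ j, lam j * (a j p * hR s R.1 (b j)) := by
        simp only [Finset.mul_sum]
        rw [Finset.sum_comm]
        refine Finset.sum_congr rfl fun j _ => ?_
        have h4 : lam j * gS s T (b j) * (a j p * b j q) =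
            lam j * a j p * (b j q * gS s T (b j)) := by ring
        rw [h4, h2 j, Finset.mul_sum]
        refine Finset.sum_congr rfl fun R _ => ?_
        ring
      rw [h3]
      refine Finset.sum_eq_zero fun R _ => ?_
      rw [h1 R, mul_zero]
    intro j
    have hb : b j ≠ 0 := by
      intro h0
      apply hab.ne_zero j
      funext pq
      simp [h0]
    obtain ⟨T, hT, hT0⟩ := exists_S hZ hs hb
    exact (mul_eq_zero.1 (hkey T hT j)).resolve_right hT0
  by_contra hdet
  have hinj : Function.Injective (Phi s φ S).mulVecLin := by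
    rw [injective_iff_map_eq_zero]
    intro v hv
    by_contra hv0
    apply hdet
    rw [← Matrix.exists_mulVec_eq_zero_iff]
    refine ⟨v, hv0, ?_⟩
    rw [← Matrix.mulVec_mulVec]
    rw [Matrix.mulVecLin_apply] at hv
    rw [hv, Matrix.mulVec_zero]
  have hrange : LinearMap.range (Phi s φ S).mulVecLin ≤ LinearMap.ker M.mulVecLin := by
    rintro _ ⟨v, rfl⟩
    rw [LinearMap.mem_ker, Matrix.mulVecLin_apply, Matrix.mulVecLin_apply,
      Matrix.mulVec_mulVec, hMP, Matrix.zero_mulVec]
  have h1 := Submodule.finrank_mono hrange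
  rw [LinearMap.finrank_range_of_inj hinj, Module.finrank_fintype_fun_eq_card] at h1
  have h2 := LinearMap.finrank_range_add_finrank_ker M.mulVecLin
  rw [Module.finrank_fintype_fun_eq_card] at h2
  have h3 : Module.finrank ℂ (LinearMap.range M.mulVecLin) = k := by
    have h4 := hind.rank_matrix
    rw [Fintype.card_fin] at h4
    exact h4
  omega

end EX
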