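import Pool.Agent.Lib.MP_d70044_ag.EX.Indep

/-!
# EX.Eqn: an equation of the secant variety which does not vanish at a given tensor
-/

namespace EX

open Finset

section Generic

variable {K : Type*} [CommRing K] [Algebra ℂ K] {W : Type*} [Fintype W] {k : ℕ}

/-- pairing of a functional with a matrix -/
def pr (φ : W → ℂ) (w : W → K) : K := ∑ x, algebraMap ℂ K (φ x) * w x

/-- the matrix of the pairings -/
def Gm (l : Fin k → W → ℂ) (T : Fin k → W → K) : Matrix (Fin k) (Fin k) K :=
  fun i m => pr (l i) (T m)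

/-- the corrected functional; it vanishes on all `T m` -/
def corr (l : Fin k → W → ℂ) (φ : W → ℂ) (T : Fin k → W → K) : W → K :=
  fun x => (Gm l T).det * algebraMap ℂ K (φ x) -
    ∑ i, ∑ j, pr φ (T i) * (Gm l T).adjugate i j * algebraMap ℂ K (l j x)

/-- the matrix `Φ` over `K` -/
noncomputable def PhiK {Z c : Type*} {N : ℕ} (s : Z → ℂ)
    (φ : c → Fin (N + 1) × Fin (N + 1) → K) (S : c → Finset Z) :
    Matrix (Fin (N + 1) × RS Z N) c K :=
  fun ρ y => (∑ q, φ y (ρ.1, q) * algebraMap ℂ K (bR N s ρ.2.1 q)) *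
    algebraMap ℂ K (gS s (S y) (bR N s ρ.2.1))

/-- a constant matrix over `K` -/
def QK {c d : Type*} (Q : Matrix c d ℂ) : Matrix c d K := fun y ρ => algebraMap ℂ K (Q y ρ)

theorem pr_map {K' : Type*} [CommRing K'] [Algebra ℂ K'] (f : K →ₐ[ℂ] K') (φ : W → ℂ)
    (w : W → K) : f (pr φ w) = pr φ (fun x => f (w x)) := by
  unfold pr
  rw [map_sum]
  refine Finset.sum_congr rfl fun x _ => ?_
  rw [map_mul, AlgHom.commutes]

theorem Gm_map {K' : Type*} [CommRing K'] [Algebra ℂ K'] (f : K →ₐ[ℂ] K') (l : Fin k → W → ℂ)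
    (T : Fin k → W → K) : (Gm l T).map f = Gm l (fun m x => f (T m x)) := by
  ext i m
  rw [Matrix.map_apply]
  unfold Gm
  rw [pr_map]

theorem det_Gm_map {K' : Type*} [CommRing K'] [Algebra ℂ K'] (f : K →ₐ[ℂ] K')
    (l : Fin k → W → ℂ) (T : Fin k → W → K) :
    f (Gm l T).det = (Gm l (fun m x => f (T m x))).det := by
  rw [← Gm_map, AlgHom.map_det]
  rfl

theorem corr_map {K' : Type*} [CommRing K'] [Algebra ℂ K'] (f : K →ₐ[ℂ] K')
    (l : Fin k → W → ℂ) (φ : W → ℂ) (T : Fin k → W → K) (x : W) :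
    f (corr l φ T x) = corr l φ (fun m x => f (T m x)) x := by
  unfold corr
  rw [map_sub, map_mul, det_Gm_map, AlgHom.commutes, map_sum]
  congr 1
  refine Finset.sum_congr rfl fun i _ => ?_
  rw [map_sum]
  refine Finset.sum_congr rfl fun j _ => ?_
  rw [map_mul, map_mul, AlgHom.commutes, pr_map]
  have h1 : f ((Gm l T).adjugate i j) = (Gm l (fun m x => f (T m x))).adjugate i j := by
    rw [← Gm_map]
    have h2 := AlgHom.map_adjugate f (Gm l T)
    have h3 := congrFun (congrFun h2 i) j
    exact h3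
  rw [h1]

theorem corr_zero (l : Fin k → W → ℂ) (φ : W → ℂ) (T : Fin k → W → K) (m : Fin k) :
    ∑ x, corr l φ T x * T m x = 0 := by
  have h1 : ∀ x, corr l φ T x * T m x = (Gm l T).det * (algebraMap ℂ K (φ x) * T m x) -
      ∑ i, ∑ j, pr φ (T i) * (Gm l T).adjugate i j * (algebraMap ℂ K (l j x) * T m x) := by
    intro x
    unfold corr
    rw [sub_mul, mul_assoc, Finset.sum_mul]
    congr 1
    refine Finset.sum_congr rfl fun i _ => ?_
    rw [Finset.sum_mul]
    refine Finset.sum_congr rfl fun j _ => ?_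
    ring
  rw [Finset.sum_congr rfl fun x _ => h1 x, Finset.sum_sub_distrib, ← Finset.mul_sum,
    Finset.sum_comm]
  have h2 : ∀ i, ∑ x, ∑ j, pr φ (T i) * (Gm l T).adjugate i j *
      (algebraMap ℂ K (l j x) * T m x) = pr φ (T i) * ((Gm l T).adjugate * Gm l T) i m := by
    intro i
    rw [Finset.sum_comm, Matrix.mul_apply, Finset.mul_sum]
    refine Finset.sum_congr rfl fun j _ => ?_
    rw [← Finset.mul_sum, mul_assoc]
    rfl
  rw [Finset.sum_congr rfl fun i _ => h2 i, Matrix.adjugate_mul]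
  rw [Finset.sum_eq_single m]
  · rw [Matrix.smul_apply, Matrix.one_apply_eq, smul_eq_mul, mul_one, mul_comm (pr φ (T m))]
    unfold pr
    rw [sub_self]
  · intro i _ hi
    rw [Matrix.smul_apply, Matrix.one_apply_ne hi, smul_zero, mul_zero]
  · intro h
    exact absurd (Finset.mem_univ _) h

end Generic

/-- the slices of a tensor -/
def sl {K : Type*} {m k : ℕ} (T : Fin m × Fin m × Fin k → K) : Fin k → Fin m × Fin m → K :=
  fun l x => T (x.1, x.2, l)

/-- the tensor of rank at most `r` -/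
def ten {m1 m2 m3 r : ℕ} (a : Fin r → Fin m1 → ℂ) (b : Fin r → Fin m2 → ℂ)
    (c : Fin r → Fin m3 → ℂ) : Fin m1 × Fin m2 × Fin m3 → ℂ :=
  fun p => ∑ i, a i p.1 * b i p.2.1 * c i p.2.2

theorem exists_F {Z c : Type*} [Fintype Z] [DecidableEq Z] [Fintype c] [DecidableEq c] {N k : ℕ}
    (s : Z → ℂ) (φ : c → Fin (N + 1) × Fin (N + 1) → ℂ) (S : c → Finset Z)
    (l : Fin k → Fin (N + 1) × Fin (N + 1) → ℂ)
    (Q : Matrix c (Fin (N + 1) × RS Z N) ℂ) :
    ∃ F : MvPolynomial (Fin (N + 1) × Fin (N + 1) × Fin k) ℂ,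
      ∀ T, MvPolynomial.eval T F = (Gm l (sl T)).det *
        (Q * Phi s (fun y => corr l (φ y) (sl T)) S).det := by
  classical
  set XX : Fin k → Fin (N + 1) × Fin (N + 1) →
    MvPolynomial (Fin (N + 1) × Fin (N + 1) × Fin k) ℂ := sl MvPolynomial.X with hXX
  set QQ : Matrix c (Fin (N + 1) × RS Z N)
    (MvPolynomial (Fin (N + 1) × Fin (N + 1) × Fin k) ℂ) := QK Q with hQQ
  set PP : Matrix (Fin (N + 1) × RS Z N) c
    (MvPolynomial (Fin (N + 1) × Fin (N + 1) × Fin k) ℂ) := PhiK s (fun y => corr l (φ y) XX) S with hPP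
  set MM : Matrix c c (MvPolynomial (Fin (N + 1) × Fin (N + 1) × Fin k) ℂ) := QQ * PP with hMM
  refine ⟨(Gm l XX).det * MM.det, fun T => ?_⟩
  have h0 : ∀ m x, MvPolynomial.aeval T (XX m x) = sl T m x := by
    intro m x
    rw [hXX]
    unfold sl
    rw [MvPolynomial.aeval_X]
  have h1 : MvPolynomial.eval T ((Gm l XX).det * MM.det) =
      MvPolynomial.aeval T ((Gm l XX).det * MM.det) := by
    rw [← MvPolynomial.coe_aeval_eq_eval]
    rfl
  rw [h1, map_mul, det_Gm_map]
  simp only [h0]
  congr 1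
  rw [AlgHom.map_det]
  congr 1
  ext y y'
  have h2 : (MvPolynomial.aeval T).mapMatrix MM y y' = MvPolynomial.aeval T (MM y y') := rfl
  rw [h2, hMM, Matrix.mul_apply, Matrix.mul_apply, map_sum]
  refine Finset.sum_congr rfl fun ρ _ => ?_
  rw [map_mul]
  congr 1
  · rw [hQQ]
    exact AlgHom.commutes _ _
  · rw [hPP]
    unfold PhiK Phi
    rw [map_mul, map_sum]
    congr 1
    · refine Finset.sum_congr rfl fun q _ => ?_
      rw [map_mul, corr_map]
      simp only [h0]
      congr 1
      exact AlgHom.commutes _ _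
    · exact AlgHom.commutes _ _

/-- vanishing on the tensors of rank at most `k` -/
theorem van {Z c : Type*} [Fintype Z] [DecidableEq Z] [Fintype c] [DecidableEq c] {N k : ℕ}
    (hZ : Fintype.card Z = 2 * N + 1) {s : Z → ℂ} (hs : Function.Injective s)
    (φ : c → Fin (N + 1) × Fin (N + 1) → ℂ) (S : c → Finset Z) (hS : ∀ y, (S y).card = N)
    (l : Fin k → Fin (N + 1) × Fin (N + 1) → ℂ)
    (hcard : Fintype.card (Fin (N + 1) × RS Z N) < Fintype.card c + k)
    (Q : Matrix c (Fin (N + 1) × RS Z N) ℂ)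
    (a b : Fin k → Fin (N + 1) → ℂ) (d : Fin k → Fin k → ℂ) :
    (Gm l (sl (ten a b d))).det * (Q * Phi s (fun y => corr l (φ y) (sl (ten a b d))) S).det
      = 0 := by
  classical
  by_cases hG : (Gm l (sl (ten a b d))).det = 0
  · rw [hG, zero_mul]
  · have hT : ∀ m x, sl (ten a b d) m x = ∑ j, a j x.1 * b j x.2 * d j m := by
      intro m x
      rfl
    set L : Matrix (Fin k) (Fin k) ℂ := fun i j => ∑ x : Fin (N + 1) × Fin (N + 1),
      l i x * (a j x.1 * b j x.2) with hL
    set D : Matrix (Fin k) (Fin k) ℂ := fun j m => d j m with hD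
    have hGLD : Gm l (sl (ten a b d)) = L * D := by
      ext i m
      rw [Matrix.mul_apply]
      unfold Gm pr
      simp only [hT, hL, hD, Algebra.algebraMap_self, RingHom.id_apply, Finset.mul_sum,
        Finset.sum_mul]
      rw [Finset.sum_comm]
      refine Finset.sum_congr rfl fun j _ => Finset.sum_congr rfl fun x _ => ?_
      ring
    rw [hGLD, Matrix.det_mul] at hG
    have hLdet : L.det ≠ 0 := left_ne_zero_of_mul hG
    have hDdet : D.det ≠ 0 := right_ne_zero_of_mul hG
    rw [drop hZ hs _ S hS a b ?_ ?_ hcard Q, mul_zero]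
    · rw [Fintype.linearIndependent_iff]
      intro lam hlam
      have h1 : L.mulVec lam = 0 := by
        funext i
        have h2 : L.mulVec lam i = ∑ x : Fin (N + 1) × Fin (N + 1), l i x *
            ∑ j, lam j * (a j x.1 * b j x.2) := by
          simp only [Matrix.mulVec, dotProduct, hL, Finset.sum_mul, Finset.mul_sum]
          rw [Finset.sum_comm]
          refine Finset.sum_congr rfl fun x _ => Finset.sum_congr rfl fun j _ => ?_
          ring
        rw [h2, Pi.zero_apply]
        refine Finset.sum_eq_zero fun x _ => ?_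
        have h3 := congrFun hlam x
        rw [Finset.sum_apply, Pi.zero_apply] at h3
        simp only [Pi.smul_apply, smul_eq_mul] at h3
        rw [h3, mul_zero]
      have h2 := Matrix.eq_zero_of_mulVec_eq_zero hLdet h1
      intro j
      rw [h2]
      rfl
    · intro y
      have h1 : ∀ m, ∑ j, (∑ x : Fin (N + 1) × Fin (N + 1),
          corr l (φ y) (sl (ten a b d)) x * (a j x.1 * b j x.2)) * D j m = 0 := by
        intro m
        rw [← corr_zero l (φ y) (sl (ten a b d)) m]
        simp only [hT, hD, Finset.sum_mul, Finset.mul_sum]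
        rw [Finset.sum_comm]
        refine Finset.sum_congr rfl fun x _ => Finset.sum_congr rfl fun j _ => ?_
        ring
      have h2 : Matrix.vecMul (fun j => ∑ x : Fin (N + 1) × Fin (N + 1),
          corr l (φ y) (sl (ten a b d)) x * (a j x.1 * b j x.2)) D = 0 := by
        funext m
        exact h1 m
      have h3 := Matrix.eq_zero_of_vecMul_eq_zero hDdet h2
      intro j
      exact congrFun h3 j

end EX
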