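import Pool.Agent.Lib.MP_d70044_ag.EX.Conf

/-!
# EX.Nodes: a choice of the nodes for which the points of the line are distinct
-/

namespace EX

open Polynomial Finset Lagrange

variable {X : Type*} [DecidableEq X]

theorem prime_prod {V : Type*} [DecidableEq V] {P : V → ℕ} (hP : ∀ v, (P v).Prime)
    (hPi : Function.Injective P) {a a' : ℕ} (ha' : 0 < a') (hb' : ∀ v, a' < P v)
    {U U' : Finset V} (h : a * ∏ v ∈ U, P v = a' * ∏ v ∈ U', P v) : U ⊆ U' := by
  intro v hv
  have h1 : P v ∣ a' * ∏ w ∈ U', P w := by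
    rw [← h]
    exact (Finset.dvd_prod_of_mem _ hv).mul_left _
  rcases (hP v).dvd_mul.1 h1 with h2 | h2
  · exact absurd (Nat.le_of_dvd ha' h2) (not_le.2 (hb' v))
  · obtain ⟨w, hw, h3⟩ := (hP v).prime.dvd_finset_prod_iff _ |>.1 h2
    have h4 := (Nat.prime_dvd_prime_iff_eq (hP v) (hP w)).1 h3
    rwa [hPi h4]

/-- the node belonging to a prime -/
noncomputable def nv (p : ℕ) : ℂ := (p : ℂ) / ((p : ℂ) - 1)

theorem nv_sub {p : ℕ} (hp : 2 ≤ p) : ((p : ℂ) - 1) ≠ 0 := by
  rw [sub_ne_zero]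
  have : p ≠ 1 := by omega
  exact_mod_cast this

theorem nv_inj {p q : ℕ} (hp : 2 ≤ p) (hq : 2 ≤ q) (h : nv p = nv q) : p = q := by
  unfold nv at h
  rw [div_eq_div_iff (nv_sub hp) (nv_sub hq)] at h
  have h1 : (p : ℂ) = q := by linear_combination -h
  exact_mod_cast h1

theorem nv_ne_zero {p : ℕ} (hp : 2 ≤ p) : nv p ≠ 0 := by
  unfold nv
  refine div_ne_zero ?_ (nv_sub hp)
  have : p ≠ 0 := by omega
  exact_mod_cast this

theorem nv_ne_one {p : ℕ} (hp : 2 ≤ p) : nv p ≠ 1 := by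
  unfold nv
  rw [ne_eq, div_eq_one_iff_eq (nv_sub hp)]
  intro h
  have h1 : (1 : ℂ) = 0 := by linear_combination h
  exact one_ne_zero h1

theorem nv_ne_neg_one {p : ℕ} (hp : 2 ≤ p) : nv p ≠ -1 := by
  unfold nv
  rw [ne_eq, div_eq_iff (nv_sub hp)]
  intro h
  have h1 : (2 * p : ℂ) = 1 := by linear_combination h
  have h2 : 2 * p = 1 := by exact_mod_cast h1
  omega

theorem nv_ratio {p : ℕ} (hp : 2 ≤ p) : (0 - nv p) / (1 - nv p) = p := by
  have h1 : (1 - nv p) ≠ 0 := sub_ne_zero.2 (nv_ne_one hp).symm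
  rw [div_eq_iff h1]
  unfold nv
  have := nv_sub hp
  field_simp
  ring

/-- the nodes `x` -/
noncomputable def xn (o : X) (P : X ⊕ X → ℕ) : X → ℂ := fun i => if i = o then 0 else nv (P (Sum.inl i))

/-- the nodes `z` -/
noncomputable def zn (o : X) (P : X ⊕ X → ℕ) : X → ℂ := fun j => if j = o then 1 else nv (P (Sum.inr j))

theorem xn_inj (o : X) {P : X ⊕ X → ℕ} (hP : ∀ v, 2 ≤ P v) (hPi : Function.Injective P) :
    Function.Injective (xn o P) := by
  intro i j h
  unfold xn at h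
  split_ifs at h with h1 h2 h2
  · rw [h1, h2]
  · exact absurd h.symm (nv_ne_zero (hP _))
  · exact absurd h (nv_ne_zero (hP _))
  · have h3 := hPi (nv_inj (hP _) (hP _) h)
    exact Sum.inl.inj h3

theorem zn_inj (o : X) {P : X ⊕ X → ℕ} (hP : ∀ v, 2 ≤ P v) (hPi : Function.Injective P) :
    Function.Injective (zn o P) := by
  intro i j h
  unfold zn at h
  split_ifs at h with h1 h2 h2
  · rw [h1, h2]
  · exact absurd h.symm (nv_ne_one (hP _))
  · exact absurd h (nv_ne_one (hP _))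
  · have h3 := hPi (nv_inj (hP _) (hP _) h)
    exact Sum.inr.inj h3

theorem xn_zn (o : X) {P : X ⊕ X → ℕ} (hP : ∀ v, 2 ≤ P v) (hPi : Function.Injective P)
    (i j : X) : xn o P i ≠ zn o P j := by
  intro h
  unfold xn zn at h
  split_ifs at h with h1 h2 h2
  · exact zero_ne_one h
  · exact absurd h.symm (nv_ne_zero (hP _))
  · exact absurd h (nv_ne_one (hP _))
  · have h3 := hPi (nv_inj (hP _) (hP _) h)
    cases h3

theorem xn_ne (o : X) {P : X ⊕ X → ℕ} (hP : ∀ v, 2 ≤ P v) (i : X) : xn o P i ≠ -1 := by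
  unfold xn
  split_ifs
  · norm_num
  · exact nv_ne_neg_one (hP _)

theorem zn_ne (o : X) {P : X ⊕ X → ℕ} (hP : ∀ v, 2 ≤ P v) (i : X) : zn o P i ≠ -1 := by
  unfold zn
  split_ifs
  · norm_num
  · exact nv_ne_neg_one (hP _)

theorem cc_val (o : X) {P : X ⊕ X → ℕ} (hP : ∀ v, 2 ≤ P v) (I J : Finset X) :
    cc (xn o P) (zn o P) I J o o =
      (∏ j ∈ J.erase o, (P (Sum.inr j) : ℂ)) * (∏ i ∈ I.erase o, (P (Sum.inl i) : ℂ))⁻¹ := by
  have hxo : xn o P o = 0 := by
    unfold xn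
    rw [if_pos rfl]
  have hzo : zn o P o = 1 := by
    unfold zn
    rw [if_pos rfl]
  unfold cc
  congr 1
  · rw [Lagrange.basis, eval_prod]
    refine Finset.prod_congr rfl fun j hj => ?_
    have hjo : j ≠ o := (Finset.mem_erase.1 hj).1
    rw [← nv_ratio (hP (Sum.inr j))]
    unfold basisDivisor
    have hzj : zn o P j = nv (P (Sum.inr j)) := by
      unfold zn
      rw [if_neg hjo]
    rw [eval_mul, eval_C, eval_sub, eval_X, eval_C, hxo, hzo, hzj]
    ring
  · rw [Lagrange.basis, eval_prod, ← Finset.prod_inv_distrib]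
    refine Finset.prod_congr rfl fun i hi => ?_
    have hio : i ≠ o := (Finset.mem_erase.1 hi).1
    rw [← nv_ratio (hP (Sum.inl i))]
    unfold basisDivisor
    have hzj : xn o P i = nv (P (Sum.inl i)) := by
      unfold xn
      rw [if_neg hio]
    rw [eval_mul, eval_C, eval_sub, eval_X, eval_C, hxo, hzo, hzj, inv_div]
    ring

theorem cc_ne (o : X) {P : X ⊕ X → ℕ} (hP : ∀ v, 2 ≤ P v) (I J : Finset X) :
    cc (xn o P) (zn o P) I J o o ≠ 0 := by
  rw [cc_val o hP]
  refine mul_ne_zero (Finset.prod_ne_zero_iff.2 fun j _ => ?_)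
    (inv_ne_zero (Finset.prod_ne_zero_iff.2 fun j _ => ?_))
  · have := hP (Sum.inr j)
    have h2 : P (Sum.inr j) ≠ 0 := by omega
    exact_mod_cast h2
  · have := hP (Sum.inl j)
    have h2 : P (Sum.inl j) ≠ 0 := by omega
    exact_mod_cast h2

/-- the parameter of the point of the line belonging to `I`, `J` -/
noncomputable def tv (o : X) (P : X ⊕ X → ℕ) (I J : Finset X) : ℂ :=
  (1 - (I.card : ℂ)) / cc (xn o P) (zn o P) I J o o

theorem tv_inj (o : X) {P : X ⊕ X → ℕ} (hP : ∀ v, (P v).Prime) (hPi : Function.Injective P)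
    {I J I' J' : Finset X} (hI : o ∈ I) (hJ : o ∈ J) (hI' : o ∈ I') (hJ' : o ∈ J')
    (hc : I.card = J.card) (hc' : I'.card = J'.card) (hb : ∀ v, I.card < P v)
    (hb' : ∀ v, I'.card < P v) (h : tv o P I J = tv o P I' J') : I = I' ∧ J = J' := by
  have hP2 : ∀ v, 2 ≤ P v := fun v => (hP v).two_le
  have hpos : 0 < I.card := Finset.card_pos.2 ⟨o, hI⟩
  have hpos' : 0 < I'.card := Finset.card_pos.2 ⟨o, hI'⟩
  have hne : ∀ v, (P v : ℂ) ≠ 0 := by
    intro v
    have := hP2 v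
    have h2 : P v ≠ 0 := by omega
    exact_mod_cast h2
  -- the integral form of the equation
  have hint : (I.card - 1) * ∏ v ∈ (I.erase o).disjSum (J'.erase o), P v =
      (I'.card - 1) * ∏ v ∈ (I'.erase o).disjSum (J.erase o), P v := by
    unfold tv at h
    rw [div_eq_div_iff (cc_ne o hP2 _ _) (cc_ne o hP2 _ _), cc_val o hP2, cc_val o hP2] at h
    have h1 : ∏ i ∈ I.erase o, (P (Sum.inl i) : ℂ) ≠ 0 :=
      Finset.prod_ne_zero_iff.2 fun j _ => hne _
    have h2 : ∏ i ∈ I'.erase o, (P (Sum.inl i) : ℂ) ≠ 0 :=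
      Finset.prod_ne_zero_iff.2 fun j _ => hne _
    have h3 : ((I.card : ℂ) - 1) * ((∏ i ∈ I.erase o, (P (Sum.inl i) : ℂ)) *
        ∏ j ∈ J'.erase o, (P (Sum.inr j) : ℂ)) = ((I'.card : ℂ) - 1) *
        ((∏ i ∈ I'.erase o, (P (Sum.inl i) : ℂ)) * ∏ j ∈ J.erase o, (P (Sum.inr j) : ℂ)) := by
      field_simp at h
      linear_combination -h
    rw [Finset.prod_disjSum, Finset.prod_disjSum]
    have h4 : (((I.card - 1 : ℕ) : ℂ)) = (I.card : ℂ) - 1 := by
      rw [Nat.cast_sub (by omega), Nat.cast_one]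
    have h5 : (((I'.card - 1 : ℕ) : ℂ)) = (I'.card : ℂ) - 1 := by
      rw [Nat.cast_sub (by omega), Nat.cast_one]
    have h6 : (((I.card - 1) * ((∏ i ∈ I.erase o, P (Sum.inl i)) *
        ∏ j ∈ J'.erase o, P (Sum.inr j)) : ℕ) : ℂ) = (((I'.card - 1) *
        ((∏ i ∈ I'.erase o, P (Sum.inl i)) * ∏ j ∈ J.erase o, P (Sum.inr j)) : ℕ) : ℂ) := by
      push_cast
      rw [h4, h5]
      exact h3
    exact_mod_cast h6
  have hprodpos : ∀ U : Finset (X ⊕ X), 0 < ∏ v ∈ U, P v := fun U =>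
    Finset.prod_pos fun v _ => (hP v).pos
  rcases Nat.eq_zero_or_pos (I.card - 1) with h0 | h0
  · have h0' : I'.card - 1 = 0 := by
      rw [h0, zero_mul] at hint
      exact (mul_eq_zero.1 hint.symm).resolve_right (hprodpos _).ne'
    have e1 : I.card = 1 := by omega
    have e2 : I'.card = 1 := by omega
    obtain ⟨i, hi⟩ := Finset.card_eq_one.1 e1
    obtain ⟨i', hi'⟩ := Finset.card_eq_one.1 e2
    obtain ⟨j, hj⟩ := Finset.card_eq_one.1 (hc ▸ e1)
    obtain ⟨j', hj'⟩ := Finset.card_eq_one.1 (hc' ▸ e2)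
    rw [hi, Finset.mem_singleton] at hI
    rw [hi', Finset.mem_singleton] at hI'
    rw [hj, Finset.mem_singleton] at hJ
    rw [hj', Finset.mem_singleton] at hJ'
    rw [hi, hi', hj, hj', ← hI, ← hI', ← hJ, ← hJ']
    exact ⟨rfl, rfl⟩
  · have h0' : 0 < I'.card - 1 := by
      rcases Nat.eq_zero_or_pos (I'.card - 1) with h1 | h1
      · rw [h1, zero_mul] at hint
        have := (mul_eq_zero.1 hint).resolve_right (hprodpos _).ne'
        omega
      · exact h1
    have hU : (I.erase o).disjSum (J'.erase o) = (I'.erase o).disjSum (J.erase o) := by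
      refine Finset.Subset.antisymm ?_ ?_
      · exact prime_prod hP hPi h0' (fun v => lt_of_le_of_lt (Nat.sub_le _ _) (hb' v)) hint
      · exact prime_prod hP hPi h0 (fun v => lt_of_le_of_lt (Nat.sub_le _ _) (hb v)) hint.symm
    constructor
    · ext i
      by_cases hio : i = o
      · rw [hio]
        exact ⟨fun _ => hI', fun _ => hI⟩
      · have h1 : Sum.inl i ∈ (I.erase o).disjSum (J'.erase o) ↔
            Sum.inl i ∈ (I'.erase o).disjSum (J.erase o) := by rw [hU]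
        simpa [Finset.inl_mem_disjSum, hio] using h1
    · ext i
      by_cases hio : i = o
      · rw [hio]
        exact ⟨fun _ => hJ', fun _ => hJ⟩
      · have h1 : Sum.inr i ∈ (I.erase o).disjSum (J'.erase o) ↔
            Sum.inr i ∈ (I'.erase o).disjSum (J.erase o) := by rw [hU]
        have h2 : i ∈ J' ↔ i ∈ J := by
          simpa [Finset.inr_mem_disjSum, hio] using h1
        exact h2.symm

end EX
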