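import Pool.Agent.Lib.MP_d70044_ag.EX.Root
import Pool.Agent.Lib.MP_d70044_ag.EX.Nodes

/-!
# EX.Final: the exponential lower bound
-/

namespace EX

open Finset

/-- extension of a tensor by zero -/
def ext0 {m1 m2 m3 k : ℕ} (T : Fin m1 × Fin m2 × Fin m3 → ℂ) : Fin k × Fin k × Fin k → ℂ :=
  fun p => if h : p.1.1 < m1 ∧ p.2.1.1 < m2 ∧ p.2.2.1 < m3 then
    T (⟨p.1.1, h.1⟩, ⟨p.2.1.1, h.2.1⟩, ⟨p.2.2.1, h.2.2⟩) else 0

/-- the zero extension of a tensor of rank at most `r` -/
theorem ext0_ten {m1 m2 m3 k r : ℕ} (a : Fin r → Fin m1 → ℂ) (b : Fin r → Fin m2 → ℂ)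
    (c : Fin r → Fin m3 → ℂ) :
    (ext0 (ten a b c) : Fin k × Fin k × Fin k → ℂ) =
      ten (fun s i => if h : i.1 < m1 then a s ⟨i.1, h⟩ else 0)
        (fun s i => if h : i.1 < m2 then b s ⟨i.1, h⟩ else 0)
        (fun s i => if h : i.1 < m3 then c s ⟨i.1, h⟩ else 0) := by
  funext p
  unfold ext0 ten
  by_cases h1 : p.1.1 < m1
  · by_cases h2 : p.2.1.1 < m2
    · by_cases h3 : p.2.2.1 < m3
      · rw [dif_pos ⟨h1, h2, h3⟩]
        refine Finset.sum_congr rfl fun s _ => ?_
        simp only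
        rw [dif_pos h1, dif_pos h2, dif_pos h3]
      · rw [dif_neg (fun h => h3 h.2.2)]
        symm
        refine Finset.sum_eq_zero fun s _ => ?_
        simp only
        rw [dif_neg h3, mul_zero]
    · rw [dif_neg (fun h => h2 h.2.1)]
      symm
      refine Finset.sum_eq_zero fun s _ => ?_
      simp only
      rw [dif_neg h2, mul_zero, zero_mul]
  · rw [dif_neg (fun h => h1 h.1)]
    symm
    refine Finset.sum_eq_zero fun s _ => ?_
    simp only
    rw [dif_neg h1, zero_mul, zero_mul]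

section Count

variable {X : Type*} [DecidableEq X]

/-- the set `I` belonging to `W` -/
def IW (o : X) (M0 : Finset X) (W : Finset (X ⊕ X)) : Finset X :=
  insert o (M0.filter fun i => Sum.inl i ∈ W)

/-- the set `J` belonging to `W` -/
def JW (o : X) (M0 : Finset X) (W : Finset (X ⊕ X)) : Finset X :=
  insert o (M0.filter fun j => Sum.inr j ∉ W)

theorem W_eq {M0 : Finset X} {W : Finset (X ⊕ X)} (hW : W ⊆ M0.disjSum M0) :
    W = (M0.filter fun i => Sum.inl i ∈ W).disjSum (M0.filter fun j => Sum.inr j ∈ W) := by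
  ext v
  rcases v with i | j
  · rw [Finset.inl_mem_disjSum, Finset.mem_filter]
    constructor
    · intro h
      exact ⟨Finset.inl_mem_disjSum.1 (hW h), h⟩
    · intro h
      exact h.2
  · rw [Finset.inr_mem_disjSum, Finset.mem_filter]
    constructor
    · intro h
      exact ⟨Finset.inr_mem_disjSum.1 (hW h), h⟩
    · intro h
      exact h.2

theorem card_IW {o : X} {M0 : Finset X} (ho : o ∉ M0) {W : Finset (X ⊕ X)}
    (hW : W ⊆ M0.disjSum M0) (hc : W.card = M0.card) :
    (IW o M0 W).card = (JW o M0 W).card := by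
  unfold IW JW
  rw [Finset.card_insert_of_notMem (fun h => ho (Finset.mem_filter.1 h).1),
    Finset.card_insert_of_notMem (fun h => ho (Finset.mem_filter.1 h).1)]
  have h1 := congrArg Finset.card (W_eq hW)
  rw [Finset.card_disjSum, hc] at h1
  have h2 := Finset.card_filter_add_card_filter_not (s := M0) (fun j => Sum.inr j ∈ W)
  omega

theorem IW_inj {o : X} {M0 : Finset X} (ho : o ∉ M0) {W W' : Finset (X ⊕ X)}
    (hW : W ⊆ M0.disjSum M0) (hW' : W' ⊆ M0.disjSum M0) (h1 : IW o M0 W = IW o M0 W')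
    (h2 : JW o M0 W = JW o M0 W') : W = W' := by
  rw [W_eq hW, W_eq hW']
  congr 1
  · ext i
    rw [Finset.mem_filter, Finset.mem_filter]
    have h3 : i ∈ IW o M0 W ↔ i ∈ IW o M0 W' := by rw [h1]
    unfold IW at h3
    rw [Finset.mem_insert, Finset.mem_insert, Finset.mem_filter, Finset.mem_filter] at h3
    constructor
    · intro h
      refine ⟨h.1, ?_⟩
      rcases h3.1 (Or.inr h) with h4 | h4
      · exact absurd (h4 ▸ h.1) ho
      · exact h4.2
    · intro h
      refine ⟨h.1, ?_⟩
      rcases h3.2 (Or.inr h) with h4 | h4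
      · exact absurd (h4 ▸ h.1) ho
      · exact h4.2
  · ext i
    rw [Finset.mem_filter, Finset.mem_filter]
    have h3 : i ∈ JW o M0 W ↔ i ∈ JW o M0 W' := by rw [h2]
    unfold JW at h3
    rw [Finset.mem_insert, Finset.mem_insert, Finset.mem_filter, Finset.mem_filter] at h3
    constructor
    · intro h
      refine ⟨h.1, ?_⟩
      by_contra hcon
      rcases h3.2 (Or.inr ⟨h.1, hcon⟩) with h4 | h4
      · exact absurd (h4 ▸ h.1) ho
      · exact h4.2 h.2
    · intro h
      refine ⟨h.1, ?_⟩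
      by_contra hcon
      rcases h3.1 (Or.inr ⟨h.1, hcon⟩) with h4 | h4
      · exact absurd (h4 ▸ h.1) ho
      · exact h4.2 h.2

end Count

theorem exists_primes {V : Type*} [Fintype V] (N : ℕ) : ∃ P : V → ℕ, (∀ v, (P v).Prime) ∧
    Function.Injective P ∧ ∀ v, N < P v := by
  refine ⟨fun v => Nat.nth Nat.Prime (N + (Fintype.equivFin V v).1), ?_, ?_, ?_⟩
  · intro v
    exact Nat.prime_nth_prime _
  · intro v w h
    have h1 := (Nat.nth_strictMono Nat.infinite_setOf_prime).injective h
    exact (Fintype.equivFin V).injective (Fin.ext (by omega))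
  · intro v
    have := Nat.add_two_le_nth_prime (N + (Fintype.equivFin V v).1)
    beta_reduce
    omega

theorem exp_tensor {k : ℕ} (hk : 4 ≤ k) : ∃ T : Fin k × Fin k × Fin k → ℂ,
    (∃ F : MvPolynomial (Fin k × Fin k × Fin k) ℂ, (∀ a b c : Fin k → Fin k → ℂ,
      MvPolynomial.eval (ten a b c) F = 0) ∧ MvPolynomial.eval T F ≠ 0) ∧
    ∀ g : MvPolynomial (Fin k × Fin k × Fin k) ℂ, (∀ a b c : Fin k → Fin k → ℂ,
      MvPolynomial.eval (ten a b c) g = 0) →
      g.totalDegree < Nat.centralBinom (Nat.sqrt k - 1) → MvPolynomial.eval T g = 0 := by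
  classical
  obtain ⟨n, hn⟩ : ∃ n, n = Nat.sqrt k := ⟨_, rfl⟩
  have hn1 : n * n ≤ k := by rw [hn]; exact Nat.sqrt_le k
  have hn2 : k < (n + 1) * (n + 1) := by rw [hn]; exact Nat.lt_succ_sqrt k
  have hn3 : 2 ≤ n := by
    rw [hn, Nat.le_sqrt]
    exact hk
  have hNk : n + 1 + 1 ≤ k := by nlinarith
  rw [← hn]
  -- the index sets
  obtain ⟨o, ho⟩ : ∃ o : Fin (n + 1), o = 0 := ⟨_, rfl⟩
  set S0 : Finset (Fin (n + 1)) := Finset.univ.erase (Fin.last n) with hS0
  have hS0c : S0.card = n := by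
    rw [hS0, Finset.card_erase_of_mem (Finset.mem_univ _), Finset.card_univ, Fintype.card_fin]
    omega
  have hoS : o ∈ S0 := by
    rw [hS0, Finset.mem_erase]
    refine ⟨?_, Finset.mem_univ _⟩
    rw [ho]
    intro h
    have := congrArg Fin.val h
    simp at this
    omega
  set M0 : Finset (Fin (n + 1)) := S0.erase o with hM0
  have hM0c : M0.card = n - 1 := by
    rw [hM0, Finset.card_erase_of_mem hoS, hS0c]
  have hoM : o ∉ M0 := Finset.notMem_erase _ _
  obtain ⟨D, hD1, -, hD2⟩ := Finset.exists_subsuperset_card_eq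
    (Finset.subset_univ (S0 ×ˢ S0)) (n := k)
    (by rw [Finset.card_product, hS0c]; exact hn1)
    (by
      rw [Finset.card_univ, Fintype.card_prod, Fintype.card_fin]
      exact hn2.le)
  set e : Fin k → Fin (n + 1) × Fin (n + 1) := fun l => ((D.equivFinOfCardEq hD2).symm l).1
    with he
  have heinj : Function.Injective e := by
    intro l l' h
    exact (D.equivFinOfCardEq hD2).symm.injective (Subtype.ext h)
  have herange : ∀ p ∈ D, p ∈ Set.range e := by
    intro p hp
    refine ⟨D.equivFinOfCardEq hD2 ⟨p, hp⟩, ?_⟩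
    rw [he]
    beta_reduce
    rw [Equiv.symm_apply_apply]
  obtain ⟨lo, hlo⟩ := herange (o, o) (hD1 (Finset.mem_product.2 ⟨hoS, hoS⟩))
  -- the nodes
  obtain ⟨P, hP, hPi, hPb⟩ := exists_primes (V := Fin (n + 1) ⊕ Fin (n + 1)) (n + 1)
  have hP2 : ∀ v, 2 ≤ P v := fun v => (hP v).two_le
  have hN : Fintype.card (Fin (n + 1)) = n + 1 := Fintype.card_fin _
  have hx := xn_inj o hP2 hPi
  have hz := zn_inj o hP2 hPi
  have hxz := xn_zn o hP2 hPi
  obtain ⟨t, ht⟩ := Infinite.exists_notMem_finset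
    ((Finset.univ : Finset (Finset (Fin (n + 1)) × Finset (Fin (n + 1)))).image
      fun IJ => tv o P IJ.1 IJ.2)
  obtain ⟨F, hF1, hF2⟩ := conf_equation hN (w0 := -1) hx hz hxz (xn_ne o hP2) (zn_ne o hP2)
    heinj lo (t := t) (by
      intro I J hIJ h1 h2 h3
      apply ht
      rw [Finset.mem_image]
      refine ⟨(I, J), Finset.mem_univ _, ?_⟩
      unfold tv
      rw [hlo] at h3
      rw [div_eq_iff (cc_ne o hP2 _ _)]
      exact h3.symm)
  refine ⟨ext0 (fun p => TT (n + 1) (xn o P) (zn o P) e lo t p.2.2 (p.1, p.2.1)),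
    ⟨MvPolynomial.rename (fun p => (Fin.castLE hNk p.1, Fin.castLE hNk p.2.1, p.2.2)) F, ?_, ?_⟩,
    ?_⟩
  · intro a b c
    rw [MvPolynomial.eval_rename]
    exact hF1 (fun s i => a s (Fin.castLE hNk i)) (fun s i => b s (Fin.castLE hNk i)) c
  · rw [MvPolynomial.eval_rename]
    have h1 : (ext0 (fun p : Fin (n + 1 + 1) × Fin (n + 1 + 1) × Fin k =>
        TT (n + 1) (xn o P) (zn o P) e lo t p.2.2 (p.1, p.2.1)) ∘
        fun p : Fin (n + 1 + 1) × Fin (n + 1 + 1) × Fin k =>
        ((Fin.castLE hNk p.1, Fin.castLE hNk p.2.1, p.2.2) : Fin k × Fin k × Fin k)) =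
        fun p => TT (n + 1) (xn o P) (zn o P) e lo t p.2.2 (p.1, p.2.1) := by
      funext p
      have h2 := p.1.2
      have h3 := p.2.1.2
      simp only [Function.comp_apply, ext0]
      rw [dif_pos]
      · rfl
      · exact ⟨h2, h3, p.2.2.2⟩
    rw [h1]
    exact hF2
  · intro g hg hdeg
    -- the line
    set u : Fin k × Fin k × Fin k → ℂ := ext0 (fun p : Fin (n + 1 + 1) × Fin (n + 1 + 1) × Fin k =>
      TT (n + 1) (xn o P) (zn o P) e lo 0 p.2.2 (p.1, p.2.1)) with hu
    set v : Fin k × Fin k × Fin k → ℂ := ext0 (fun p : Fin (n + 1 + 1) × Fin (n + 1 + 1) × Fin k =>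
      if p.2.2 = lo then uu (n + 1) (xn o P) (zn o P) ∅ ∅ (p.1, p.2.1) else 0) with hv
    have hline : ∀ t : ℂ, ext0 (fun p : Fin (n + 1 + 1) × Fin (n + 1 + 1) × Fin k =>
        TT (n + 1) (xn o P) (zn o P) e lo t p.2.2 (p.1, p.2.1)) = fun i => u i + t * v i := by
      intro t
      funext i
      rw [hu, hv]
      unfold ext0
      split_ifs with h
      · unfold TT
        simp only [Pi.add_apply, Pi.smul_apply, smul_eq_mul]
        split_ifs <;> ring
      · ring
    rw [hline]
    refine line_vanish g u v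
      ((((M0.disjSum M0).powersetCard (n - 1))).image fun W => tv o P (IW o M0 W) (JW o M0 W))
      ?_ ?_ t
    · intro τ hτ
      rw [Finset.mem_image] at hτ
      obtain ⟨W, hW, hWτ⟩ := hτ
      rw [Finset.mem_powersetCard] at hW
      have hIJ := card_IW hoM hW.1 (by rw [hW.2, hM0c])
      have hsubI : IW o M0 W ⊆ S0 := by
        unfold IW
        refine Finset.insert_subset hoS ?_
        exact (Finset.filter_subset _ _).trans (Finset.erase_subset _ _)
      have hsubJ : JW o M0 W ⊆ S0 := by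
        unfold JW
        refine Finset.insert_subset hoS ?_
        exact (Finset.filter_subset _ _).trans (Finset.erase_subset _ _)
      obtain ⟨a, b, c, habc⟩ := root_ten (N := n + 1) hx hz hxz heinj lo (t := τ) hIJ
        (fun i hi j hj => herange _ (hD1 (Finset.mem_product.2 ⟨hsubI hi, hsubJ hj⟩)))
        (by rw [hlo]; exact Finset.mem_insert_self _ _)
        (by rw [hlo]; exact Finset.mem_insert_self _ _)
        (by rw [hlo]; exact cc_ne o hP2 _ _)
        (by
          rw [hlo, ← hWτ]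
          unfold tv
          rw [div_mul_cancel₀ _ (cc_ne o hP2 _ _)])
      rw [← hline, ← habc, ext0_ten]
      exact hg _ _ _
    · rw [Finset.card_image_of_injOn]
      · rw [Finset.card_powersetCard, Finset.card_disjSum, hM0c]
        have h1 : n - 1 + (n - 1) = 2 * (n - 1) := by ring
        rw [h1]
        exact hdeg
      · intro W hW W' hW' h
        rw [Finset.mem_coe, Finset.mem_powersetCard] at hW hW'
        have hb : ∀ (I : Finset (Fin (n + 1))) v, I.card < P v := by
          intro I v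
          have h1 := Finset.card_le_univ I
          rw [hN] at h1
          exact lt_of_le_of_lt h1 (hPb v)
        have h2 := tv_inj o hP hPi (Finset.mem_insert_self _ _) (Finset.mem_insert_self _ _)
          (Finset.mem_insert_self _ _) (Finset.mem_insert_self _ _)
          (card_IW hoM hW.1 (by rw [hW.2, hM0c])) (card_IW hoM hW'.1 (by rw [hW'.2, hM0c]))
          (hb _) (hb _) h
        exact IW_inj hoM hW.1 hW'.1 h2.1 h2.2

end EX
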