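import Mathlib

/-!
# EX.Grow: the central binomial coefficient outgrows all powers
-/

namespace EX

open Filter

theorem grow (d : ℕ) : ∃ K : ℕ, 4 ≤ K ∧ ∀ k : ℕ, K ≤ k →
    k ^ d < Nat.centralBinom (Nat.sqrt k - 1) := by
  have h1 := tendsto_pow_const_div_const_pow_of_one_lt (2 * d + 1) (r := (4 : ℝ)) (by norm_num)
  have h2 : (0 : ℝ) < 1 / (2 * 9 ^ d) := by positivity
  have h3 := (h1.eventually (gt_mem_nhds h2))
  rw [Filter.eventually_atTop] at h3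
  obtain ⟨M, hM⟩ := h3
  refine ⟨(M + 2) * (M + 2), by nlinarith, fun k hk => ?_⟩
  have hs : M + 2 ≤ Nat.sqrt k := by
    rw [Nat.le_sqrt]
    exact hk
  obtain ⟨m, hm⟩ : ∃ m, m = Nat.sqrt k - 1 := ⟨_, rfl⟩
  have hm1 : M ≤ m := by omega
  have hm2 : 1 ≤ m := by omega
  have hk2 : k < (m + 2) * (m + 2) := by
    have h4 := Nat.lt_succ_sqrt k
    have h5 : Nat.sqrt k + 1 = m + 2 := by omega
    rw [Nat.succ_eq_add_one, h5] at h4
    exact h4
  rw [← hm]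
  have h4 := hM m hm1
  rw [div_lt_div_iff₀ (by positivity) (by positivity), one_mul] at h4
  have h5 : m ^ (2 * d + 1) * (2 * 9 ^ d) < 4 ^ m := by exact_mod_cast h4
  have h6 := Nat.four_pow_le_two_mul_self_mul_centralBinom m (by omega)
  have h7 : m ^ (2 * d + 1) * (2 * 9 ^ d) < 2 * m * Nat.centralBinom m := lt_of_lt_of_le h5 h6
  have h8 : m ^ (2 * d + 1) * (2 * 9 ^ d) = 2 * m * (9 ^ d * m ^ (2 * d)) := by
    rw [pow_succ]
    ring
  rw [h8] at h7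
  have h9 : 9 ^ d * m ^ (2 * d) < Nat.centralBinom m := lt_of_mul_lt_mul_left h7 (Nat.zero_le _)
  have h10 : k ≤ 9 * m ^ 2 := by nlinarith
  calc k ^ d ≤ (9 * m ^ 2) ^ d := Nat.pow_le_pow_left h10 d
    _ = 9 ^ d * m ^ (2 * d) := by rw [mul_pow, ← pow_mul]
    _ < _ := h9

end EX
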