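import Pool.Agent.Lib.MP_d70044_ag.EX.Drop

/-!
# EX.Indep: independence and number of the columns
-/

namespace EX

open Polynomial Finset Lagrange

variable {V : Type*} [Fintype V] [DecidableEq V] {N : ℕ}

/-- column index: pairs `(R, z)` with `z ∉ R`, and `R` good for `z = none` -/
abbrev Cidx (V : Type*) [DecidableEq V] (N : ℕ) (good : RS (Option V) N → Prop) :=
  {y : RS (Option V) N × Option V // y.2 ∉ y.1.1 ∧ (y.2 = none → good y.1)}

/-- the functional of a column -/
noncomputable def phiC {good : RS (Option V) N → Prop} (s : Option V → ℂ)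
    (ψ : RS (Option V) N → Fin (N + 1) × Fin (N + 1) → ℂ) (y : Cidx V N good) :
    Fin (N + 1) × Fin (N + 1) → ℂ :=
  Option.elim y.1.2 (ψ y.1.1) (fun v pq => s (some v) ^ (pq.1 : ℕ) * s (some v) ^ (pq.2 : ℕ))

/-- the subset of a column -/
def SC {good : RS (Option V) N → Prop} (y : Cidx V N good) : Finset (Option V) :=
  y.1.1.1ᶜ.erase y.1.2

theorem card_SC (hV : Fintype.card V = 2 * N) {good : RS (Option V) N → Prop}
    (y : Cidx V N good) : (SC y).card = N := by
  unfold SC
  have h1 : y.1.2 ∈ y.1.1.1ᶜ := by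
    rw [Finset.mem_compl]
    exact y.2.1
  rw [Finset.card_erase_of_mem h1, Finset.card_compl, Fintype.card_option, hV, y.1.1.2]
  omega

theorem col_some {good : RS (Option V) N → Prop} (s : Option V → ℂ)
    (ψ : RS (Option V) N → Fin (N + 1) × Fin (N + 1) → ℂ) (R0 : RS (Option V) N)
    (y : Cidx V N good) {u : V} (hy : y.1.2 = some u) (τ : Fin (N + 1) → ℂ) :
    ∑ p, τ p * Phi s (phiC s ψ) SC (p, R0) y =
      ev τ (s (some u)) * (nodal R0.1 s).eval (s (some u)) * gS s (SC y) (bR N s R0.1) := by
  have h1 : ∀ p, Phi s (phiC s ψ) SC (p, R0) y =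
      s (some u) ^ (p : ℕ) * (nodal R0.1 s).eval (s (some u)) * gS s (SC y) (bR N s R0.1) := by
    intro p
    unfold Phi phiC
    rw [hy]
    simp only [Option.elim_some]
    rw [← ev_bR R0.2]
    unfold ev
    rw [Finset.mul_sum]
    congr 1
    refine Finset.sum_congr rfl fun q _ => ?_
    ring
  rw [Finset.sum_congr rfl fun p _ => by rw [h1 p]]
  unfold ev
  rw [Finset.sum_mul, Finset.sum_mul]
  refine Finset.sum_congr rfl fun p _ => ?_
  ring

/-- independence of the columns -/
theorem cols (hV : Fintype.card V = 2 * N) {s : Option V → ℂ} (hs : Function.Injective s)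
    {good : RS (Option V) N → Prop} [Fintype (Cidx V N good)]
    (ψ : RS (Option V) N → Fin (N + 1) × Fin (N + 1) → ℂ)
    (hψ : ∀ R : RS (Option V) N, none ∉ R.1 → good R →
      ∑ pq : Fin (N + 1) × Fin (N + 1), ψ R pq *
        (bR N s (R.1ᶜ.erase none) pq.1 * bR N s R.1 pq.2) ≠ 0)
    (v : Cidx V N good → ℂ) (hv : (Phi s (phiC s ψ) SC).mulVec v = 0) : v = 0 := by
  classical
  have hcomb : ∀ (R0 : RS (Option V) N) (τ : Fin (N + 1) → ℂ),
      ∑ y, (∑ p, τ p * Phi s (phiC s ψ) SC (p, R0) y) * v y = 0 := by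
    intro R0 τ
    have h1 : ∀ p, ∑ y, Phi s (phiC s ψ) SC (p, R0) y * v y = 0 := by
      intro p
      have h2 := congrFun hv (p, R0)
      exact h2
    simp only [Finset.sum_mul]
    rw [Finset.sum_comm]
    refine Finset.sum_eq_zero fun p _ => ?_
    have h2 : ∑ y, τ p * Phi s (phiC s ψ) SC (p, R0) y * v y =
        τ p * ∑ y, Phi s (phiC s ψ) SC (p, R0) y * v y := by
      rw [Finset.mul_sum]
      refine Finset.sum_congr rfl fun y _ => ?_
      ring
    rw [h2, h1, mul_zero]
  have hne : ∀ (R0 R : RS (Option V) N), R ≠ R0 → ∃ z ∈ R0.1, z ∉ R.1 := by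
    intro R0 R hRR
    by_contra hcon
    push Not at hcon
    apply hRR
    apply Subtype.ext
    exact (Finset.eq_of_subset_of_card_le hcon (by rw [R.2, R0.2])).symm
  have hcardc : ∀ (R0 : RS (Option V) N) (z0 : Option V), z0 ∉ R0.1 →
      (R0.1ᶜ.erase z0).card = N := by
    intro R0 z0 hz0
    rw [Finset.card_erase_of_mem (Finset.mem_compl.2 hz0), Finset.card_compl,
      Fintype.card_option, hV, R0.2]
    omega
  -- vanishing for columns `(R, some u)`
  have hsome : ∀ (R0 : RS (Option V) N) (z0 : Option V), z0 ∉ R0.1 → ∀ (y : Cidx V N good) (u : V),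
      y.1.2 = some u → y.1 ≠ (R0, z0) →
      ∑ p, bR N s (R0.1ᶜ.erase z0) p * Phi s (phiC s ψ) SC (p, R0) y = 0 := by
    intro R0 z0 hz0 y u hy hyne
    rw [col_some s ψ R0 y hy]
    by_cases hR : y.1.1 = R0
    · have hu : some u ≠ z0 := by
        intro h
        apply hyne
        rw [← hR, ← h, ← hy]
      have hu2 : some u ∈ R0.1ᶜ.erase z0 := by
        rw [Finset.mem_erase, Finset.mem_compl]
        refine ⟨hu, ?_⟩
        rw [← hR, ← hy]
        exact y.2.1
      rw [ev_bR (hcardc R0 z0 hz0), eval_nodal_at_node hu2, zero_mul, zero_mul]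
    · obtain ⟨z, hz1, hz2⟩ := hne R0 y.1.1 hR
      by_cases hzu : z = some u
      · rw [← hzu, eval_nodal_at_node hz1, mul_zero, zero_mul]
      · rw [gS_zero R0.2 hz1, mul_zero]
        unfold SC
        rw [Finset.mem_erase, Finset.mem_compl, hy]
        exact ⟨hzu, hz2⟩
  have hgne : ∀ (R0 : RS (Option V) N) (z0 : Option V),
      gS s (R0.1ᶜ.erase z0) (bR N s R0.1) ≠ 0 := by
    intro R0 z0
    unfold gS
    refine Finset.prod_ne_zero_iff.2 fun z hz => ?_
    rw [ev_bR R0.2]
    refine nodal_ne hs ?_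
    rw [Finset.mem_erase, Finset.mem_compl] at hz
    exact hz.2
  have hA : ∀ y : Cidx V N good, y.1.2 = none → v y = 0 := by
    intro y0 hy0
    set R0 := y0.1.1 with hR0
    have hz0 : none ∉ R0.1 := by
      rw [← hy0]
      exact y0.2.1
    have h1 := hcomb R0 (bR N s (R0.1ᶜ.erase none))
    rw [Finset.sum_eq_single y0] at h1
    · refine (mul_eq_zero.1 h1).resolve_left ?_
      have h2 : ∀ p, Phi s (phiC s ψ) SC (p, R0) y0 =
          (∑ q, ψ R0 (p, q) * bR N s R0.1 q) * gS s (R0.1ᶜ.erase none) (bR N s R0.1) := by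
        intro p
        unfold Phi phiC SC
        rw [hy0]
        rfl
      have h3 : ∑ p, bR N s (R0.1ᶜ.erase none) p * Phi s (phiC s ψ) SC (p, R0) y0 =
          (∑ pq : Fin (N + 1) × Fin (N + 1), ψ R0 pq *
            (bR N s (R0.1ᶜ.erase none) pq.1 * bR N s R0.1 pq.2)) *
            gS s (R0.1ᶜ.erase none) (bR N s R0.1) := by
        rw [Fintype.sum_prod_type, Finset.sum_mul]
        refine Finset.sum_congr rfl fun p _ => ?_
        rw [h2, ← mul_assoc, Finset.mul_sum]
        congr 1
        refine Finset.sum_congr rfl fun q _ => ?_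
        ring
      rw [h3]
      exact mul_ne_zero (hψ R0 hz0 (y0.2.2 hy0)) (hgne R0 none)
    · intro y _ hy
      rcases hyn : y.1.2 with _ | u
      · have hR : y.1.1 ≠ R0 := by
          intro h
          apply hy
          apply Subtype.ext
          apply Prod.ext
          · exact h
          · rw [hyn, hy0]
        obtain ⟨z, hz1, hz2⟩ := hne R0 y.1.1 hR
        have h2 : ∀ p, Phi s (phiC s ψ) SC (p, R0) y = 0 := by
          intro p
          unfold Phi
          rw [gS_zero R0.2 hz1, mul_zero]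
          unfold SC
          rw [Finset.mem_erase, Finset.mem_compl, hyn]
          refine ⟨?_, hz2⟩
          intro h
          rw [h] at hz1
          exact hz0 hz1
        simp [h2]
      · rw [hsome R0 none hz0 y u hyn ?_, zero_mul]
        intro h
        rw [h] at hyn
        cases hyn
    · intro h
      exact absurd (Finset.mem_univ _) h
  funext y0
  rcases hy0 : y0.1.2 with _ | u0
  · exact hA y0 hy0
  · set R0 := y0.1.1 with hR0
    have hz0 : some u0 ∉ R0.1 := by
      rw [← hy0]
      exact y0.2.1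
    have h1 := hcomb R0 (bR N s (R0.1ᶜ.erase (some u0)))
    rw [Finset.sum_eq_single y0] at h1
    · refine (mul_eq_zero.1 h1).resolve_left ?_
      rw [col_some s ψ R0 y0 hy0, ev_bR (hcardc R0 _ hz0)]
      refine mul_ne_zero (mul_ne_zero (nodal_ne hs (Finset.notMem_erase _ _))
        (nodal_ne hs hz0)) ?_
      have h2 : SC y0 = R0.1ᶜ.erase (some u0) := by
        unfold SC
        rw [hy0]
      rw [h2]
      exact hgne R0 _
    · intro y _ hy
      rcases hyn : y.1.2 with _ | u
      · rw [hA y hyn, mul_zero]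
      · rw [hsome R0 (some u0) hz0 y u hyn ?_, zero_mul]
        intro h
        apply hy
        apply Subtype.ext
        rw [h]
        apply Prod.ext
        · rfl
        · exact hy0.symm
    · intro h
      exact absurd (Finset.mem_univ _) h

theorem card_cols (hV : Fintype.card V = 2 * N) (good : RS (Option V) N → Prop)
    [Fintype (Cidx V N good)] [Fintype {R : RS (Option V) N // none ∉ R.1 ∧ ¬ good R}] :
    Fintype.card (Fin (N + 1) × RS (Option V) N) ≤ Fintype.card (Cidx V N good) +
      Fintype.card {R : RS (Option V) N // none ∉ R.1 ∧ ¬ good R} := by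
  classical
  have hc : ∀ R : RS (Option V) N, (R.1ᶜ).card = N + 1 := by
    intro R
    rw [Finset.card_compl, Fintype.card_option, hV, R.2]
    omega
  have he : ∀ R : RS (Option V) N, ∃ e : Fin (N + 1) → Option V, Function.Injective e ∧
      ∀ p, e p ∉ R.1 := by
    intro R
    refine ⟨fun p => ((Finset.equivFinOfCardEq (hc R)).symm p).1, ?_, ?_⟩
    · intro p p' h
      exact (Finset.equivFinOfCardEq (hc R)).symm.injective (Subtype.ext h)
    · intro p
      have h1 := ((Finset.equivFinOfCardEq (hc R)).symm p).2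
      rwa [Finset.mem_compl] at h1
  choose e he1 he2 using he
  rw [← Fintype.card_sum]
  refine Fintype.card_le_of_injective (fun x : Fin (N + 1) × RS (Option V) N =>
    if h : e x.2 x.1 = none → good x.2 then
      (Sum.inl ⟨(x.2, e x.2 x.1), he2 x.2 x.1, h⟩ : Cidx V N good ⊕
        {R : RS (Option V) N // none ∉ R.1 ∧ ¬ good R})
    else Sum.inr ⟨x.2, by
      push Not at h
      refine ⟨?_, h.2⟩
      rw [← h.1]
      exact he2 x.2 x.1⟩) ?_
  rintro ⟨p, R⟩ ⟨p', R'⟩ h
  simp only at h
  split_ifs at h with h1 h2 h2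
  · have h3 := Sum.inl.inj h
    have h4 := congrArg (fun y => y.1) h3
    simp only [Prod.mk.injEq] at h4
    obtain ⟨h5, h6⟩ := h4
    subst h5
    rw [he1 R h6]
  · have h3 := Sum.inr.inj h
    have h4 : R = R' := congrArg (fun y => y.1) h3
    subst h4
    push Not at h1 h2
    rw [he1 R (h1.1.trans h2.1.symm)]

end EX
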