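import Mathlib

/-!
# EX.Lag: coefficient vectors, nodal polynomials and an interpolation identity
-/

namespace EX

open Polynomial Finset Lagrange

/-- value at `s` of the polynomial with coefficient vector `b` -/
noncomputable def ev {N : ℕ} (b : Fin (N + 1) → ℂ) (s : ℂ) : ℂ := ∑ p, b p * s ^ (p : ℕ)

/-- the coefficient vector of a polynomial -/
noncomputable def vec (N : ℕ) (P : ℂ[X]) : Fin (N + 1) → ℂ := fun p => P.coeff p

/-- the polynomial with coefficient vector `b` -/
noncomputable def pol {N : ℕ} (b : Fin (N + 1) → ℂ) : ℂ[X] := ∑ p, C (b p) * X ^ (p : ℕ)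

theorem ev_vec {N : ℕ} {P : ℂ[X]} (h : P.natDegree ≤ N) (s : ℂ) : ev (vec N P) s = P.eval s := by
  unfold ev vec
  rw [Polynomial.eval_eq_sum_range' (n := N + 1) (by omega), Finset.sum_range]

theorem eval_pol {N : ℕ} (b : Fin (N + 1) → ℂ) (s : ℂ) : (pol b).eval s = ev b s := by
  unfold pol ev
  rw [eval_finsetSum]
  simp

theorem degree_pol {N : ℕ} (b : Fin (N + 1) → ℂ) : (pol b).degree < (N + 1 : ℕ) := by
  unfold pol
  exact degree_sum_fin_lt b

theorem coeff_pol {N : ℕ} (b : Fin (N + 1) → ℂ) (p : Fin (N + 1)) :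
    (pol b).coeff (p : ℕ) = b p := by
  unfold pol
  rw [finsetSum_coeff]
  simp only [coeff_C_mul, coeff_X_pow]
  rw [Finset.sum_eq_single p]
  · simp
  · intro q _ hq
    rw [if_neg, mul_zero]
    intro h
    exact hq (Fin.ext h.symm)
  · simp

/-- Lagrange interpolation for coefficient vectors -/
theorem lag {Z : Type*} [DecidableEq Z] {N : ℕ} (b : Fin (N + 1) → ℂ) (s : Z → ℂ) (W : Finset Z)
    (hW : W.card = N + 1) (hs : Set.InjOn s W) (p : Fin (N + 1)) :
    b p = ∑ w ∈ W, ev b (s w) / (nodal (W.erase w) s).eval (s w) *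
      vec N (nodal (W.erase w) s) p := by
  have h1 := eq_interpolate (v := s) (f := pol b) hs (by rw [hW]; exact degree_pol b)
  have h2 := congrArg (fun P => P.coeff (p : ℕ)) h1
  simp only [coeff_pol] at h2
  rw [h2, interpolate_eq_sum, finsetSum_coeff]
  refine Finset.sum_congr rfl fun w hw => ?_
  rw [coeff_C_mul, eval_pol, eval_nodal]
  rfl

/-- the `N`-element subsets -/
abbrev RS (Z : Type*) (N : ℕ) := {R : Finset Z // R.card = N}

/-- the coefficient vector of the nodal polynomial -/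
noncomputable def bR {Z : Type*} (N : ℕ) (s : Z → ℂ) (R : Finset Z) : Fin (N + 1) → ℂ :=
  vec N (nodal R s)

/-- product of the values at the nodes in `S` -/
noncomputable def gS {Z : Type*} {N : ℕ} (s : Z → ℂ) (S : Finset Z) (b : Fin (N + 1) → ℂ) : ℂ :=
  ∏ z ∈ S, ev b (s z)

/-- the Lagrange type coefficient -/
noncomputable def hR {Z : Type*} [Fintype Z] [DecidableEq Z] {N : ℕ} (s : Z → ℂ) (R : Finset Z)
    (b : Fin (N + 1) → ℂ) : ℂ :=
  (∏ z ∈ Rᶜ, ev b (s z)) / ∏ z ∈ Rᶜ, (nodal R s).eval (s z)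

theorem ev_bR {Z : Type*} {N : ℕ} {s : Z → ℂ} {R : Finset Z} (hR : R.card = N) (x : ℂ) :
    ev (bR N s R) x = (nodal R s).eval x :=
  ev_vec (by rw [natDegree_nodal, hR]) x

theorem nodal_ne {Z : Type*} {s : Z → ℂ} (hs : Function.Injective s) {R : Finset Z} {z : Z}
    (hz : z ∉ R) : (nodal R s).eval (s z) ≠ 0 := by
  rw [eval_nodal]
  refine Finset.prod_ne_zero_iff.2 fun r hr => ?_
  rw [sub_ne_zero]
  intro h
  rw [hs h] at hz
  exact hz hr

theorem gS_zero {Z : Type*} {N : ℕ} {s : Z → ℂ} {R S : Finset Z} (hR : R.card = N) {z : Z}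
    (hz : z ∈ R) (hz' : z ∈ S) : gS s S (bR N s R) = 0 := by
  unfold gS
  refine Finset.prod_eq_zero hz' ?_
  rw [ev_bR hR]
  exact eval_nodal_at_node hz

theorem interp {Z : Type*} [Fintype Z] [DecidableEq Z] {N : ℕ} (hZ : Fintype.card Z = 2 * N + 1)
    {s : Z → ℂ} (hs : Function.Injective s) {S : Finset Z} (hS : S.card = N)
    (γ b : Fin (N + 1) → ℂ) :
    ∑ R : RS Z N, (∑ p, γ p * bR N s R.1 p) * gS s S (bR N s R.1) * hR s R.1 b =
      (∑ p, γ p * b p) * gS s S b := by
  have hW : Sᶜ.card = N + 1 := by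
    rw [Finset.card_compl, hZ, hS]
    omega
  have hinj : Function.Injective (fun w : {w // w ∈ Sᶜ} =>
      (⟨Sᶜ.erase w.1, by rw [Finset.card_erase_of_mem w.2, hW]; omega⟩ : RS Z N)) := by
    intro w w' h
    have h1 : Sᶜ.erase w.1 = Sᶜ.erase w'.1 := congrArg Subtype.val h
    have h2 : w.1 ∉ Sᶜ.erase w'.1 := by
      rw [← h1]
      exact Finset.notMem_erase _ _
    rw [Finset.mem_erase, not_and] at h2
    by_contra h3
    exact h2 (fun h4 => h3 (Subtype.ext h4)) w.2
  rw [← Fintype.sum_of_injective _ hinj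
    (fun w => (∑ p, γ p * bR N s (Sᶜ.erase w.1) p) * gS s S (bR N s (Sᶜ.erase w.1)) *
      hR s (Sᶜ.erase w.1) b) _ ?_ (fun w => rfl)]
  · rw [← Finset.attach_eq_univ, Finset.sum_attach Sᶜ (fun w => (∑ p, γ p *
      bR N s (Sᶜ.erase w) p) * gS s S (bR N s (Sᶜ.erase w)) * hR s (Sᶜ.erase w) b)]
    have hterm : ∀ w ∈ Sᶜ, (∑ p, γ p * bR N s (Sᶜ.erase w) p) * gS s S (bR N s (Sᶜ.erase w)) *
        hR s (Sᶜ.erase w) b = (∑ p, γ p * (ev b (s w) / (nodal (Sᶜ.erase w) s).eval (s w) *
          vec N (nodal (Sᶜ.erase w) s) p)) * gS s S b := by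
      intro w hw
      have hcard : (Sᶜ.erase w).card = N := by rw [Finset.card_erase_of_mem hw, hW]; omega
      have hwS : w ∉ S := by rwa [Finset.mem_compl] at hw
      have hcompl : (Sᶜ.erase w)ᶜ = insert w S := by
        rw [Finset.compl_erase, compl_compl]
      unfold hR gS
      rw [hcompl, Finset.prod_insert hwS, Finset.prod_insert hwS]
      simp only [ev_bR hcard]
      have h1 : ∏ z ∈ S, (nodal (Sᶜ.erase w) s).eval (s z) ≠ 0 := by
        refine Finset.prod_ne_zero_iff.2 fun z hz => ?_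
        refine nodal_ne hs fun h => ?_
        rw [Finset.mem_erase, Finset.mem_compl] at h
        exact h.2 hz
      have h2 : (nodal (Sᶜ.erase w) s).eval (s w) ≠ 0 := nodal_ne hs (Finset.notMem_erase _ _)
      have h3 : ∑ p, γ p * (ev b (s w) / (nodal (Sᶜ.erase w) s).eval (s w) *
          vec N (nodal (Sᶜ.erase w) s) p) = (∑ p, γ p * bR N s (Sᶜ.erase w) p) *
          (ev b (s w) / (nodal (Sᶜ.erase w) s).eval (s w)) := by
        rw [Finset.sum_mul]
        refine Finset.sum_congr rfl fun p _ => ?_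
        unfold bR
        ring
      rw [h3]
      field_simp
    rw [Finset.sum_congr rfl hterm, ← Finset.sum_mul]
    congr 1
    rw [Finset.sum_comm]
    refine Finset.sum_congr rfl fun p _ => ?_
    rw [← Finset.mul_sum, ← lag b s Sᶜ hW (hs.injOn) p]
  · intro R hR
    have h1 : ∃ z, z ∈ R.1 ∧ z ∈ S := by
      by_contra hcon
      push Not at hcon
      have hsub : R.1 ⊆ Sᶜ := fun z hz => by
        rw [Finset.mem_compl]
        exact hcon z hz
      have h2 : (Sᶜ \ R.1).card = 1 := by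
        rw [Finset.card_sdiff_of_subset hsub, hW, R.2]
        omega
      obtain ⟨w, hw⟩ := Finset.card_eq_one.1 h2
      have hwm : w ∈ Sᶜ \ R.1 := by rw [hw]; exact Finset.mem_singleton_self w
      rw [Finset.mem_sdiff] at hwm
      apply hR
      refine ⟨⟨w, hwm.1⟩, Subtype.ext ?_⟩
      change Sᶜ.erase w = R.1
      ext z
      rw [Finset.mem_erase]
      constructor
      · rintro ⟨hz1, hz2⟩
        by_contra hz3
        have : z ∈ Sᶜ \ R.1 := Finset.mem_sdiff.2 ⟨hz2, hz3⟩
        rw [hw, Finset.mem_singleton] at this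
        exact hz1 this
      · intro hz
        exact ⟨fun h => hwm.2 (h ▸ hz), hsub hz⟩
    obtain ⟨z, hz1, hz2⟩ := h1
    rw [gS_zero R.2 hz1 hz2, mul_zero, zero_mul]

end EX
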