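import Pool.Agent.Lib.MP_d70044_ag.EX.Bad

/-!
# EX.Root: the points of the secant variety on the line
-/

namespace EX

open Polynomial Finset Lagrange

variable {X : Type*} [Fintype X] [DecidableEq X] {N : ℕ}

theorem root_ten {x z : X → ℂ} (hx : Function.Injective x)
    (hz : Function.Injective z) (hxz : ∀ i j, x i ≠ z j) {k : ℕ} {e : Fin k → X × X}
    (he : Function.Injective e) (lo : Fin k) {t : ℂ} {I J : Finset X} (hIJ : I.card = J.card)
    (hsub : ∀ i ∈ I, ∀ j ∈ J, (i, j) ∈ Set.range e)
    (hoI : (e lo).1 ∈ I) (hoJ : (e lo).2 ∈ J)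
    (hcc : cc x z I J (e lo).1 (e lo).2 ≠ 0)
    (ht : t * cc x z I J (e lo).1 (e lo).2 = 1 - (I.card : ℂ)) :
    ∃ (a b : Fin k → Fin (N + 1) → ℂ) (c : Fin k → Fin k → ℂ),
      ten a b c = fun p => TT N x z e lo t p.2.2 (p.1, p.2.1) := by
  classical
  set f : X × X → ℂ := fun p => if p.1 ∈ I ∧ p.2 ∈ J then cc x z I J p.1 p.2 else 0 with hf
  obtain ⟨co, hco⟩ : ∃ co, cc x z I J (e lo).1 (e lo).2 = co := ⟨_, rfl⟩
  rw [hco] at hcc ht
  have hflo : f (e lo) = co := by
    rw [hf]
    beta_reduce
    rw [if_pos ⟨hoI, hoJ⟩, hco]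
  refine ⟨fun l => if l = lo then vec N (AA x z I J) else vec N (AA x z {(e l).1} {(e l).2}),
    fun l => if l = lo then vec N (AA z x J I) else vec N (AA z x {(e l).2} {(e l).1}),
    fun l' l => if l = lo then (if l' = lo then 1 / co else - (f (e l') / co)) else
      (if l' = l then 1 else 0), ?_⟩
  have hab : ∀ l' : Fin k, ∀ p q : Fin (N + 1),
      (if l' = lo then vec N (AA x z I J) else vec N (AA x z {(e l').1} {(e l').2})) p *
      (if l' = lo then vec N (AA z x J I) else vec N (AA z x {(e l').2} {(e l').1})) q =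
      if l' = lo then uu N x z I J (p, q) else uu N x z {(e l').1} {(e l').2} (p, q) := by
    intro l' p q
    split_ifs <;> rfl
  funext y
  obtain ⟨p, q, l⟩ := y
  unfold ten
  simp only [hab]
  unfold TT
  simp only [Pi.add_apply, Pi.smul_apply, smul_eq_mul]
  by_cases hl : l = lo
  · subst hl
    simp only [if_true]
    have hexp : uu N x z I J (p, q) = (1 - (I.card : ℂ)) * uu N x z ∅ ∅ (p, q) +
        ∑ l', f (e l') * uu N x z {(e l').1} {(e l').2} (p, q) := by
      rw [uu_expand hx hz hxz hIJ]
      congr 1
      rw [Fintype.sum_of_injective e he (fun l' => f (e l') *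
        uu N x z {(e l').1} {(e l').2} (p, q)) (fun r => f r * uu N x z {r.1} {r.2} (p, q)) ?_
        (fun l => rfl), Fintype.sum_prod_type]
      · rw [← Finset.sum_filter_add_sum_filter_not Finset.univ (fun i => i ∈ I)]
        rw [Finset.sum_eq_zero (s := Finset.univ.filter fun i => i ∉ I), add_zero,
          Finset.filter_univ_mem]
        · refine Finset.sum_congr rfl fun i hi => ?_
          rw [← Finset.sum_filter_add_sum_filter_not Finset.univ (fun j => j ∈ J)]
          rw [Finset.sum_eq_zero (s := Finset.univ.filter fun j => j ∉ J), add_zero,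
            Finset.filter_univ_mem]
          · refine Finset.sum_congr rfl fun j hj => ?_
            rw [hf]
            beta_reduce
            rw [if_pos ⟨hi, hj⟩]
          · intro j hj
            rw [hf]
            beta_reduce
            rw [if_neg, zero_mul]
            intro h
            exact (Finset.mem_filter.1 hj).2 h.2
        · intro i hi
          refine Finset.sum_eq_zero fun j _ => ?_
          rw [hf]
          beta_reduce
          rw [if_neg, zero_mul]
          intro h
          exact (Finset.mem_filter.1 hi).2 h.1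
      · intro r hr
        rw [hf]
        beta_reduce
        rw [if_neg, zero_mul]
        intro h
        exact hr (hsub r.1 h.1 r.2 h.2)
    rw [← Finset.add_sum_erase _ _ (Finset.mem_univ l)]
    rw [← Finset.add_sum_erase _ _ (Finset.mem_univ l), hflo] at hexp
    simp only [if_true]
    have h1 : ∑ l' ∈ Finset.univ.erase l, (if l' = l then uu N x z I J (p, q) else
        uu N x z {(e l').1} {(e l').2} (p, q)) * (if l' = l then 1 / co else - (f (e l') / co)) =
        - (∑ l' ∈ Finset.univ.erase l, f (e l') * uu N x z {(e l').1} {(e l').2} (p, q)) / co := by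
      rw [neg_div, Finset.sum_div, ← Finset.sum_neg_distrib]
      refine Finset.sum_congr rfl fun l' hl' => ?_
      have h2 : l' ≠ l := (Finset.mem_erase.1 hl').1
      rw [if_neg h2, if_neg h2]
      ring
    rw [h1]
    obtain ⟨S, hS⟩ : ∃ S, ∑ l' ∈ Finset.univ.erase l, f (e l') *
      uu N x z {(e l').1} {(e l').2} (p, q) = S := ⟨_, rfl⟩
    rw [hS] at hexp ⊢
    rw [hexp, ← ht]
    field_simp
    ring
  · simp only [if_neg hl]
    rw [Finset.sum_eq_single l]
    · rw [if_neg hl, if_pos rfl]
      ring
    · intro l' _ hl'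
      rw [if_neg hl', mul_zero]
    · intro h
      exact absurd (Finset.mem_univ _) h

/-- restriction of a polynomial to a line -/
theorem line_poly {σ : Type*} (g : MvPolynomial σ ℂ) (u v : σ → ℂ) :
    ∃ P : ℂ[X], P.natDegree ≤ g.totalDegree ∧
      ∀ t : ℂ, P.eval t = MvPolynomial.eval (fun i => u i + t * v i) g := by
  classical
  refine ⟨MvPolynomial.aeval (fun i => Polynomial.C (u i) + Polynomial.X * Polynomial.C (v i)) g,
    ?_, ?_⟩
  · rw [MvPolynomial.aeval_eq_eval₂Hom, MvPolynomial.coe_eval₂Hom, MvPolynomial.eval₂_eq]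
    refine natDegree_sum_le_of_forall_le _ _ fun m hm => ?_
    refine natDegree_mul_le.trans ?_
    have h1 : (algebraMap ℂ ℂ[X] (MvPolynomial.coeff m g)).natDegree = 0 := natDegree_C _
    rw [h1, zero_add]
    refine (natDegree_prod_le _ _).trans ?_
    refine le_trans ?_ (MvPolynomial.le_totalDegree hm)
    refine Finset.sum_le_sum fun i _ => ?_
    refine natDegree_pow_le.trans ?_
    have h2 : (Polynomial.C (u i) + Polynomial.X * Polynomial.C (v i) : ℂ[X]).natDegree ≤ 1 := by
      refine natDegree_add_le_of_degree_le ?_ ?_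
      · rw [natDegree_C]
        omega
      · refine natDegree_mul_le.trans ?_
        rw [natDegree_X, natDegree_C]
    exact (Nat.mul_le_mul_left _ h2).trans (by rw [mul_one])
  · intro t
    induction g using MvPolynomial.induction_on with
    | C r =>
      rw [MvPolynomial.aeval_C, MvPolynomial.eval_C]
      change eval t (Polynomial.C r) = r
      rw [eval_C]
    | add p q hp hq => rw [map_add, map_add, eval_add, hp, hq]
    | mul_X p w hp =>
      rw [map_mul, map_mul, eval_mul, hp, MvPolynomial.aeval_X, MvPolynomial.eval_X, eval_add,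
        eval_mul, eval_C, eval_C, eval_X]

/-- a polynomial of small degree vanishing at many points of a line vanishes on the line -/
theorem line_vanish {σ : Type*} (g : MvPolynomial σ ℂ) (u v : σ → ℂ) (Z : Finset ℂ)
    (hZ : ∀ t ∈ Z, MvPolynomial.eval (fun i => u i + t * v i) g = 0)
    (hd : g.totalDegree < Z.card) (t : ℂ) : MvPolynomial.eval (fun i => u i + t * v i) g = 0 := by
  obtain ⟨P, hP1, hP2⟩ := line_poly g u v
  have h1 : P = 0 := by
    by_contra h0
    have h2 := Polynomial.card_roots' P
    have h3 : Z.card ≤ P.roots.toFinset.card := by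
      refine Finset.card_le_card fun t ht => ?_
      rw [Multiset.mem_toFinset, mem_roots h0, IsRoot.def, hP2]
      exact hZ t ht
    have h4 := Multiset.toFinset_card_le P.roots
    omega
  rw [← hP2, h1, eval_zero]

end EX
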