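import Pool.Agent.Lib.MP_d70044_ag.EX.Conf
import Pool.Agent.Lib.MP_d70044_ag.EX.Lag

/-!
# EX.Vec: the rank one matrices of the configuration and their linear relations
-/

namespace EX

open Polynomial Finset Lagrange

variable {X : Type*} [Fintype X] [DecidableEq X] {N : ℕ}

theorem vec_add (P Q : ℂ[X]) (p : Fin (N + 1)) :
    vec N (P + Q) p = vec N P p + vec N Q p := by
  unfold vec
  rw [coeff_add]

theorem vec_C_mul (a : ℂ) (Q : ℂ[X]) (p : Fin (N + 1)) :
    vec N (C a * Q) p = a * vec N Q p := by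
  unfold vec
  rw [coeff_C_mul]

theorem vec_sum {ι : Type*} (s : Finset ι) (f : ι → ℂ[X]) (p : Fin (N + 1)) :
    vec N (∑ i ∈ s, f i) p = ∑ i ∈ s, vec N (f i) p := by
  unfold vec
  rw [finsetSum_coeff]

/-- the rank one matrix `u_{I,J}` -/
noncomputable def uu (N : ℕ) (x z : X → ℂ) (I J : Finset X) :
    Fin (N + 1) × Fin (N + 1) → ℂ :=
  fun p => vec N (AA x z I J) p.1 * vec N (AA z x J I) p.2

theorem vec_AA {x z : X → ℂ} (hx : Function.Injective x) {I J : Finset X}
    (hIJ : I.card = J.card) (p : Fin (N + 1)) :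
    vec N (AA x z I J) p = vec N (nodal Finset.univ x) p +
      ∑ i ∈ I, rho x z I J i * vec N (nodal (Finset.univ.erase i) x) p := by
  rw [AA_expand hx hIJ, vec_add, vec_sum]
  simp only [vec_C_mul]

theorem rho_single (x z : X → ℂ) (i j : X) : rho x z {i} {j} i = x i - z j := by
  unfold rho nodalWeight nodal
  simp

theorem uu_expand {x z : X → ℂ} (hx : Function.Injective x) (hz : Function.Injective z)
    (hxz : ∀ i j, x i ≠ z j) {I J : Finset X} (hIJ : I.card = J.card)
    (p : Fin (N + 1) × Fin (N + 1)) :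
    uu N x z I J p = (1 - (I.card : ℂ)) * uu N x z ∅ ∅ p +
      ∑ i ∈ I, ∑ j ∈ J, cc x z I J i j * uu N x z {i} {j} p := by
  obtain ⟨a0, ha0⟩ : ∃ a, vec N (nodal Finset.univ x) p.1 = a := ⟨_, rfl⟩
  obtain ⟨b0, hb0⟩ : ∃ a, vec N (nodal Finset.univ z) p.2 = a := ⟨_, rfl⟩
  obtain ⟨a, ha⟩ : ∃ a : X → ℂ, ∀ i, vec N (nodal (Finset.univ.erase i) x) p.1 = a i :=
    ⟨_, fun _ => rfl⟩
  obtain ⟨b, hb⟩ : ∃ b : X → ℂ, ∀ i, vec N (nodal (Finset.univ.erase i) z) p.2 = b i :=
    ⟨_, fun _ => rfl⟩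
  have h1 : uu N x z I J p = (a0 + ∑ i ∈ I, rho x z I J i * a i) *
      (b0 + ∑ j ∈ J, rho z x J I j * b j) := by
    unfold uu
    rw [vec_AA hx hIJ, vec_AA hz hIJ.symm, ha0, hb0]
    simp only [ha, hb]
  have h2 : uu N x z ∅ ∅ p = a0 * b0 := by
    unfold uu
    rw [vec_AA hx rfl, vec_AA hz rfl, ha0, hb0]
    simp
  have h3 : ∀ i j, uu N x z {i} {j} p = (a0 + (x i - z j) * a i) * (b0 + (z j - x i) * b j) := by
    intro i j
    unfold uu
    rw [vec_AA hx (by simp), vec_AA hz (by simp), ha0, hb0]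
    simp only [ha, hb, Finset.sum_singleton, rho_single]
  rw [h1, h2]
  simp only [h3]
  have e1 : ∑ i ∈ I, ∑ j ∈ J, cc x z I J i j = (I.card : ℂ) := by
    rw [Finset.sum_congr rfl fun i hi => sum_cc hx hz hIJ hi]
    simp
  have e2 : ∀ i ∈ I, ∑ j ∈ J, cc x z I J i j * (x i - z j) = rho x z I J i :=
    fun i hi => sum_cc_mul hx hz hxz hIJ hi
  have e3 : ∀ j ∈ J, ∑ i ∈ I, cc x z I J i j * (z j - x i) = rho z x J I j := by
    intro j hj
    rw [← sum_cc_mul hz hx (fun i j => (hxz j i).symm) hIJ.symm hj]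
    refine Finset.sum_congr rfl fun i _ => ?_
    rw [cc_symm]
  have e4 : ∀ i ∈ I, ∀ j ∈ J, cc x z I J i j * (x i - z j) ^ 2 =
      -(rho x z I J i * rho z x J I j) := fun i hi j hj => cc_sq hxz hi hj
  have key : ∑ i ∈ I, ∑ j ∈ J, cc x z I J i j *
      ((a0 + (x i - z j) * a i) * (b0 + (z j - x i) * b j)) =
      (I.card : ℂ) * (a0 * b0) + (∑ i ∈ I, rho x z I J i * a i) * b0 +
      a0 * (∑ j ∈ J, rho z x J I j * b j) +
      (∑ i ∈ I, rho x z I J i * a i) * (∑ j ∈ J, rho z x J I j * b j) := by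
    have f1 : ∀ i ∈ I, ∀ j ∈ J, cc x z I J i j *
        ((a0 + (x i - z j) * a i) * (b0 + (z j - x i) * b j)) =
        cc x z I J i j * (a0 * b0) + (cc x z I J i j * (x i - z j)) * (a i * b0) +
        (cc x z I J i j * (z j - x i)) * (a0 * b j) +
        (rho x z I J i * a i) * (rho z x J I j * b j) := by
      intro i hi j hj
      have := e4 i hi j hj
      linear_combination (-(a i * b j)) * this
    rw [Finset.sum_congr rfl fun i hi => Finset.sum_congr rfl fun j hj => f1 i hi j hj]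
    simp only [Finset.sum_add_distrib]
    congr 1
    · congr 1
      · congr 1
        · rw [← e1]
          simp only [Finset.sum_mul]
        · rw [Finset.sum_mul]
          refine Finset.sum_congr rfl fun i hi => ?_
          rw [← Finset.sum_mul, e2 i hi]
          ring
      · rw [Finset.sum_comm, Finset.mul_sum]
        refine Finset.sum_congr rfl fun j hj => ?_
        rw [← Finset.sum_mul, e3 j hj]
        ring
    · rw [Finset.sum_mul]
      refine Finset.sum_congr rfl fun i _ => ?_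
      rw [Finset.mul_sum]
  rw [key]
  ring

/-- evaluation of a matrix at a pair of points -/
noncomputable def th (N : ℕ) (a b : ℂ) : (Fin (N + 1) × Fin (N + 1) → ℂ) →ₗ[ℂ] ℂ :=
  ∑ x : Fin (N + 1) × Fin (N + 1), (a ^ (x.1 : ℕ) * b ^ (x.2 : ℕ)) • LinearMap.proj x

theorem th_apply (a b : ℂ) (w : Fin (N + 1) × Fin (N + 1) → ℂ) :
    th N a b w = ∑ x : Fin (N + 1) × Fin (N + 1), w x * (a ^ (x.1 : ℕ) * b ^ (x.2 : ℕ)) := by
  unfold th
  rw [LinearMap.sum_apply]
  refine Finset.sum_congr rfl fun x _ => ?_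
  rw [LinearMap.smul_apply, LinearMap.proj_apply, smul_eq_mul, mul_comm]

theorem natDegree_AA (hN : Fintype.card X = N) (x z : X → ℂ) {I J : Finset X}
    (hIJ : I.card = J.card) : (AA x z I J).natDegree = N := by
  unfold AA
  rw [Monic.natDegree_mul nodal_monic nodal_monic, natDegree_nodal, natDegree_nodal,
    Finset.card_compl, hN, ← hIJ]
  have := Finset.card_le_univ I
  omega

theorem monic_AA (x z : X → ℂ) (I J : Finset X) : (AA x z I J).Monic := by
  unfold AA
  exact nodal_monic.mul nodal_monic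

theorem th_uu (hN : Fintype.card X = N) (x z : X → ℂ) {I J : Finset X}
    (hIJ : I.card = J.card) (a b : ℂ) :
    th N a b (uu N x z I J) = (AA x z I J).eval a * (AA z x J I).eval b := by
  rw [th_apply, Fintype.sum_prod_type, ← ev_vec (natDegree_AA hN x z hIJ).le,
    ← ev_vec (natDegree_AA hN z x hIJ.symm).le]
  unfold ev uu
  rw [Finset.sum_mul]
  refine Finset.sum_congr rfl fun p _ => ?_
  rw [Finset.mul_sum]
  refine Finset.sum_congr rfl fun q _ => ?_
  ring

theorem lead_uu (hN : Fintype.card X = N) (x z : X → ℂ) {I J : Finset X}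
    (hIJ : I.card = J.card) : uu N x z I J (Fin.last N, Fin.last N) = 1 := by
  unfold uu vec
  simp only [Fin.val_last]
  have h1 : (AA x z I J).coeff N = 1 := by
    have := (monic_AA x z I J).coeff_natDegree
    rwa [natDegree_AA hN x z hIJ] at this
  have h2 : (AA z x J I).coeff N = 1 := by
    have := (monic_AA z x J I).coeff_natDegree
    rwa [natDegree_AA hN z x hIJ.symm] at this
  rw [h1, h2, one_mul]

/-- the diagonal evaluations at the nodes vanish -/
theorem diag_x (hN : Fintype.card X = N) (x z : X → ℂ) {I J : Finset X}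
    (hIJ : I.card = J.card) (i : X) : th N (x i) (x i) (uu N x z I J) = 0 := by
  rw [th_uu hN x z hIJ]
  unfold AA
  rw [eval_mul, eval_mul]
  by_cases hi : i ∈ I
  · rw [eval_nodal_at_node hi, mul_zero, mul_zero]
  · rw [eval_nodal_at_node (Finset.mem_compl.2 hi), zero_mul, zero_mul]

theorem diag_z (hN : Fintype.card X = N) (x z : X → ℂ) {I J : Finset X}
    (hIJ : I.card = J.card) (j : X) : th N (z j) (z j) (uu N x z I J) = 0 := by
  rw [th_uu hN x z hIJ]
  unfold AA
  rw [eval_mul, eval_mul]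
  by_cases hj : j ∈ J
  · rw [eval_nodal_at_node hj, mul_zero, zero_mul]
  · rw [eval_nodal_at_node (s := Jᶜ) (v := z) (Finset.mem_compl.2 hj), zero_mul, mul_zero]

theorem th_empty (hN : Fintype.card X = N) (x z : X → ℂ) (i : X) (b : ℂ) :
    th N (x i) b (uu N x z ∅ ∅) = 0 := by
  rw [th_uu hN x z rfl]
  unfold AA
  rw [eval_mul, eval_nodal_at_node (by simp), zero_mul, zero_mul]

theorem th_single_ne (hN : Fintype.card X = N) {x z : X → ℂ} {i j i' j' : X}
    (h : (i', j') ≠ (i, j)) : th N (x i) (z j) (uu N x z {i'} {j'}) = 0 := by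
  rw [th_uu hN x z (by simp)]
  unfold AA
  rw [eval_mul, eval_mul]
  by_cases hi : i' = i
  · have hj : j' ≠ j := fun hj => h (by rw [hi, hj])
    rw [eval_nodal_at_node (s := {j'}ᶜ) (v := z) (i := j) (by simpa using hj.symm), zero_mul,
      mul_zero]
  · rw [eval_nodal_at_node (s := {i'}ᶜ) (v := x) (i := i) (by simpa using Ne.symm hi), zero_mul,
      zero_mul]

theorem th_single (hN : Fintype.card X = N) {x z : X → ℂ} (hx : Function.Injective x)
    (hz : Function.Injective z) (hxz : ∀ i j, x i ≠ z j) (i j : X) :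
    th N (x i) (z j) (uu N x z {i} {j}) ≠ 0 := by
  rw [th_uu hN x z (by simp)]
  unfold AA
  rw [eval_mul, eval_mul]
  refine mul_ne_zero (mul_ne_zero (nodal_ne hx (by simp)) ?_)
    (mul_ne_zero (nodal_ne hz (by simp)) ?_)
  · rw [eval_nodal, Finset.prod_singleton, sub_ne_zero]
    exact hxz i j
  · rw [eval_nodal, Finset.prod_singleton, sub_ne_zero]
    exact (hxz i j).symm

theorem th_uu_node (hN : Fintype.card X = N) {x z : X → ℂ} (hx : Function.Injective x)
    (hz : Function.Injective z) (hxz : ∀ i j, x i ≠ z j) {I J : Finset X}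
    (hIJ : I.card = J.card) (i j : X) :
    th N (x i) (z j) (uu N x z I J) = (if i ∈ I ∧ j ∈ J then cc x z I J i j else 0) *
      th N (x i) (z j) (uu N x z {i} {j}) := by
  have h1 : uu N x z I J = (1 - (I.card : ℂ)) • uu N x z ∅ ∅ +
      ∑ i' ∈ I, ∑ j' ∈ J, cc x z I J i' j' • uu N x z {i'} {j'} := by
    funext p
    rw [uu_expand hx hz hxz hIJ]
    simp only [Pi.add_apply, Pi.smul_apply, smul_eq_mul, Finset.sum_apply]
  rw [h1, map_add, map_smul, th_empty hN, smul_zero, zero_add, map_sum]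
  simp only [map_sum, map_smul, smul_eq_mul]
  split_ifs with h
  · rw [Finset.sum_eq_single i]
    · rw [Finset.sum_eq_single j]
      · intro j' _ hj'
        rw [th_single_ne hN (by simpa using hj'), mul_zero]
      · intro h'
        exact absurd h.2 h'
    · intro i' _ hi'
      refine Finset.sum_eq_zero fun j' _ => ?_
      rw [th_single_ne hN (by simp [hi']), mul_zero]
    · intro h'
      exact absurd h.1 h'
  · rw [zero_mul]
    refine Finset.sum_eq_zero fun i' hi' => Finset.sum_eq_zero fun j' hj' => ?_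
    rw [th_single_ne hN ?_, mul_zero]
    intro h'
    rw [Prod.mk.injEq] at h'
    apply h
    rw [← h'.1, ← h'.2]
    exact ⟨hi', hj'⟩

end EX
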